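import Mathlib

/-! Definitions used in the statement on graph sandwich problems. -/

namespace Pool.Agent.Lib.MP_451b27_lc

/-- The finite simple graph presented by a pair `(n, l)`: its vertices are `0, …, n - 1`, and two
distinct vertices `i`, `j` are adjacent when `(i, j)` or `(j, i)` occurs in the list `l`. -/
def decode (c : ℕ × List (ℕ × ℕ)) : SimpleGraph (Fin c.1) :=
  SimpleGraph.fromRel fun i j => (i.val, j.val) ∈ c.2

/-- `G` has no induced subgraph isomorphic to a graph presented by a member of the list `F`. -/
def Free (F : List (ℕ × List (ℕ × ℕ))) {V : Type} (G : SimpleGraph V) : Prop :=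
  ∀ c ∈ F, IsEmpty (decode c ↪g G)

/-- The 2-edge-coloured graph with blue edges `B` and red edges `R` is a yes-instance of the
sandwich problem for `F`-free graphs: some `F`-free graph `E` on the same vertices contains
all blue edges and no red edge. -/
def InSP (F : List (ℕ × List (ℕ × ℕ))) {V : Type} (B R : SimpleGraph V) : Prop :=
  ∃ E : SimpleGraph V, B ≤ E ∧ Disjoint E R ∧ Free F E

/-- There is a homomorphism of 2-edge-coloured graphs from `(V, B, R)` to `(W, HB, HR)`. -/
def MapsTo2 {V W : Type} (B R : SimpleGraph V) (HB HR : SimpleGraph W) : Prop :=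
  ∃ φ : V → W, (∀ u v, B.Adj u v → HB.Adj (φ u) (φ v)) ∧ ∀ u v, R.Adj u v → HR.Adj (φ u) (φ v)

/-- The sandwich problem for `F`-free graphs is `CSP(H)` for some finite or infinite
2-edge-coloured graph `H = (W, HB, HR)`. -/
def IsCSP (F : List (ℕ × List (ℕ × ℕ))) : Prop :=
  ∃ (W : Type) (HB HR : SimpleGraph W), Disjoint HB HR ∧
    ∀ (V : Type) [Finite V] (B R : SimpleGraph V), Disjoint B R →
      (InSP F B R ↔ MapsTo2 B R HB HR)

end Pool.Agent.Lib.MP_451b27_lc
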