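import Mathlib

/-! A fixed finite Post-Turing machine whose halting on the words `γ₁ γ₂^(k+1)` is the
halting problem. -/

open Turing

namespace Pool.Agent.Lib.MP_451b27_lc

/-- The `k`-th partial recursive function halts on input `0`. -/
def Halts (k : ℕ) : Prop :=
  (Nat.Partrec.Code.eval (Denumerable.ofNat Nat.Partrec.Code k) 0).Dom

theorem not_computablePred_halts : ¬ ComputablePred Halts := by
  intro h
  apply ComputablePred.halting_problem 0
  have h2 : Computable (fun c : Nat.Partrec.Code => Encodable.encode c) := Computable.encode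
  have h3 : (fun c : Nat.Partrec.Code => (c.eval 0).Dom) ≤₀ Halts :=
    ⟨fun c => Encodable.encode c, h2, fun c => by simp [Halts]⟩
  exact ComputablePred.computable_of_manyOneReducible h3 h

/-- The number with `k + 1` binary digits `1`. -/
def ones : ℕ → PosNum
  | 0 => PosNum.one
  | k + 1 => PosNum.bit1 (ones k)

theorem ones_cast (k : ℕ) : ((ones k : ℕ)) + 1 = 2 ^ (k + 1) := by
  induction k with
  | zero => rfl
  | succ k ih =>
    rw [ones, PosNum.cast_bit1, pow_succ, ← ih]
    ring

theorem trNat_ones (k : ℕ) :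
    PartrecToTM2.trNat (ones k : ℕ) = List.replicate (k + 1) PartrecToTM2.Γ'.bit1 := by
  have h : (((ones k : ℕ)) : Num) = Num.pos (ones k) := PosNum.of_to_nat (ones k)
  rw [PartrecToTM2.trNat, h, PartrecToTM2.trNum]
  clear h
  induction k with
  | zero => rfl
  | succ k ih => rw [ones, PartrecToTM2.trPosNum, ih]; rfl

/-- The universal function read through the binary length of the input. -/
def univFun (m : ℕ) : Part ℕ :=
  (Nat.rfind fun n => (decide (2 ^ (n + 1) = m + 1) : Bool)).bind fun n =>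
    Nat.Partrec.Code.eval (Denumerable.ofNat Nat.Partrec.Code n) 0

theorem partrec_univFun : Partrec univFun := by
  have hpow : Primrec₂ (fun a b : ℕ => a ^ b) := Primrec₂.unpaired'.1 Nat.Primrec.pow
  have h1 : Computable₂ (fun m n : ℕ => (decide (2 ^ (n + 1) = m + 1) : Bool)) := by
    have : PrimrecRel (fun m n : ℕ => 2 ^ (n + 1) = m + 1) :=
      Primrec.eq.comp₂
        (hpow.comp₂ (Primrec.const 2).to₂ (Primrec.succ.comp₂ Primrec₂.right))
        (Primrec.succ.comp₂ Primrec₂.left)
    exact this.decide.to_comp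
  refine Partrec.bind (Partrec.rfind h1.partrec₂) ?_
  exact Nat.Partrec.Code.eval_part.comp
    ((Computable.ofNat Nat.Partrec.Code).comp Computable.snd) (Computable.const 0)

theorem univFun_ones (k : ℕ) : (univFun (ones k : ℕ)).Dom ↔ Halts k := by
  have h : k ∈ Nat.rfind fun n => (decide (2 ^ (n + 1) = (ones k : ℕ) + 1) : Bool) := by
    refine Nat.mem_rfind.mpr ⟨by simp [ones_cast], fun {m} hm => ?_⟩
    have : 2 ^ (m + 1) ≠ 2 ^ (k + 1) := fun h => by
      have := Nat.pow_right_injective (le_refl 2) h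
      omega
    simp [ones_cast, this]
  unfold univFun Halts
  rw [Part.eq_some_iff.mpr h, Part.bind_some]

theorem exists_machine : ∃ (Γ Λ : Type) (_ : Inhabited Γ) (_ : Inhabited Λ) (_ : Finite Γ)
    (M : TM0.Machine Γ Λ) (S : Set Λ) (γ₁ γ₂ : Γ), S.Finite ∧ TM0.Supports M S ∧
      ∀ k : ℕ, (TM0.eval M (γ₁ :: List.replicate (k + 1) γ₂)).Dom ↔ Halts k := by
  classical
  have hf : Nat.Partrec' (n := 1) (fun v => univFun v.head) :=
    Nat.Partrec'.of_part (partrec_univFun.comp Primrec.vector_head.to_comp)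
  obtain ⟨c, hc⟩ := ToPartrec.Code.exists_code hf
  let _ : Fintype PartrecToTM2.K' :=
    ⟨{.main, .rev, .aux, .stack}, fun x => by cases x <;> simp⟩
  let inh : Inhabited PartrecToTM2.Λ' := ⟨PartrecToTM2.trNormal c PartrecToTM2.Cont'.halt⟩
  let M2 : PartrecToTM2.Λ' →
      TM2.Stmt (fun _ : PartrecToTM2.K' => PartrecToTM2.Γ') PartrecToTM2.Λ'
        (Option PartrecToTM2.Γ') := PartrecToTM2.tr
  have hs : TM2.Supports M2 _ := PartrecToTM2.tr_supports c PartrecToTM2.Cont'.halt
  have hs1 := TM2to1.tr_supports M2 hs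
  have hs0 := TM1to0.tr_supports _ hs1
  let γ₁ : TM2to1.Γ' PartrecToTM2.K' (fun _ : PartrecToTM2.K' => PartrecToTM2.Γ') :=
    (true, Function.update (fun _ => none) PartrecToTM2.K'.main (some PartrecToTM2.Γ'.cons))
  let γ₂ : TM2to1.Γ' PartrecToTM2.K' (fun _ : PartrecToTM2.K' => PartrecToTM2.Γ') :=
    (false, Function.update (fun _ => none) PartrecToTM2.K'.main (some PartrecToTM2.Γ'.bit1))
  refine ⟨_, _, inferInstance, inferInstance, inferInstance,
    TM1to0.tr (TM2to1.tr M2), _, γ₁, γ₂, Finset.finite_toSet _, hs0, fun k => ?_⟩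
  have hinit : TM2to1.trInit (Γ := fun _ : PartrecToTM2.K' => PartrecToTM2.Γ') PartrecToTM2.K'.main
      (PartrecToTM2.trList [(ones k : ℕ)]) = γ₁ :: List.replicate (k + 1) γ₂ := by
    have h1 : (PartrecToTM2.trList [(ones k : ℕ)]).reverse =
        PartrecToTM2.Γ'.cons :: List.replicate (k + 1) PartrecToTM2.Γ'.bit1 := by
      simp [PartrecToTM2.trList, trNat_ones]
    unfold TM2to1.trInit
    rw [h1]
    exact congrArg (List.cons γ₁) (List.map_replicate (n := k + 1) (a := PartrecToTM2.Γ'.bit1)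
      (f := fun a : PartrecToTM2.Γ' => ((false, Function.update (fun _ => none)
        PartrecToTM2.K'.main (some a)) :
          TM2to1.Γ' PartrecToTM2.K' (fun _ : PartrecToTM2.K' => PartrecToTM2.Γ'))))
  rw [← hinit, TM1to0.tr_eval, TM2to1.tr_eval_dom]
  have hcfg : TM2.init (Γ := fun _ : PartrecToTM2.K' => PartrecToTM2.Γ') (Λ := PartrecToTM2.Λ')
      (σ := Option PartrecToTM2.Γ') PartrecToTM2.K'.main (PartrecToTM2.trList [(ones k : ℕ)]) =
      PartrecToTM2.init c [(ones k : ℕ)] := by
    unfold TM2.init PartrecToTM2.init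
    congr 1
    funext x
    cases x <;> rfl
  have hev := PartrecToTM2.tr_eval c [(ones k : ℕ)]
  have hc' : ToPartrec.Code.eval c [(ones k : ℕ)] = pure <$> univFun (ones k : ℕ) :=
    hc ⟨[(ones k : ℕ)], rfl⟩
  have h1 : (TM2.eval M2 PartrecToTM2.K'.main (PartrecToTM2.trList [(ones k : ℕ)])).Dom ↔
      (StateTransition.eval (TM2.step PartrecToTM2.tr)
        (PartrecToTM2.init c [(ones k : ℕ)])).Dom := by
    rw [← hcfg]; rfl
  rw [h1, hev, hc']
  exact univFun_ones k

end Pool.Agent.Lib.MP_451b27_lc
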