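import Mathlib
import Pool.Agent.Lib.MP_451b27_lc.Machine

/-! A local condition on binary quarter-plane patterns that encodes the halting problem. -/

open Turing

namespace Pool.Agent.Lib.MP_451b27_lc

/-- The phase of the vertex at distance `d` from the origin. -/
def ph (t d : ℕ) : ℕ := if d = 0 then 0 else (d - 1) % t + 1

/-- The code of the `i`-th cell of the bottom row. -/
def rowCode (t c₁ c₂ c₃ k i : ℕ) : ℕ :=
  if i < 2 then t else if i = 2 then c₁ else if i < k + 4 then c₂ else c₃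

/-- The prescribed bits of the bottom row. -/
def bit (t c₁ c₂ c₃ k d : ℕ) : Prop := d ≠ 0 ∧ (d - 1) % t = rowCode t c₁ c₂ c₃ k ((d - 1) / t)

section Abs

variable {Γ Λ : Type} [Inhabited Γ] [Inhabited Λ] (M : TM0.Machine Γ Λ)

/-- One step of the machine in absolute coordinates. -/
def astep (s : Λ × ℤ × (ℤ → Γ)) : Λ × ℤ × (ℤ → Γ) :=
  match M s.1 (s.2.2 s.2.1) with
  | none => s
  | some (q', .move .left) => (q', s.2.1 - 1, s.2.2)
  | some (q', .move .right) => (q', s.2.1 + 1, s.2.2)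
  | some (q', .write a) => (q', s.2.1, Function.update s.2.2 s.2.1 a)

/-- The relation between relative and absolute configurations. -/
def Rel (c : TM0.Cfg Γ Λ) (s : Λ × ℤ × (ℤ → Γ)) : Prop :=
  c.q = s.1 ∧ ∀ n : ℤ, c.Tape.nth n = s.2.2 (s.2.1 + n)

omit [Inhabited Λ] in
theorem Rel.head {c : TM0.Cfg Γ Λ} {s : Λ × ℤ × (ℤ → Γ)} (h : Rel c s) :
    c.Tape.1 = s.2.2 s.2.1 := by
  have := h.2 0
  rwa [Tape.nth_zero, add_zero] at this

theorem Rel.step {c c' : TM0.Cfg Γ Λ} {s : Λ × ℤ × (ℤ → Γ)} (h : Rel c s)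
    (hc : c' ∈ TM0.step M c) : Rel c' (astep M s) := by
  obtain ⟨q, T⟩ := c
  have hh := h.head
  obtain ⟨hq, hT⟩ := h
  simp only at hq hT hh
  obtain ⟨⟨q', a⟩, ha, rfl⟩ := Option.map_eq_some_iff.1 hc
  rw [hq, hh] at ha
  unfold astep
  rw [ha]
  rcases a with (_ | _) | a
  · refine ⟨rfl, fun n => ?_⟩
    simp only [Tape.move_left_nth, hT]
    exact congrArg _ (by ring)
  · refine ⟨rfl, fun n => ?_⟩
    simp only [Tape.move_right_nth, hT]
    exact congrArg _ (by ring)
  · refine ⟨rfl, fun n => ?_⟩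
    simp only [Tape.write_nth, hT]
    by_cases hn : n = 0
    · simp [hn]
    · rw [if_neg hn, Function.update_of_ne (by omega)]

theorem Rel.step_none {c : TM0.Cfg Γ Λ} {s : Λ × ℤ × (ℤ → Γ)} (h : Rel c s) :
    TM0.step M c = none ↔ M s.1 (s.2.2 s.2.1) = none := by
  obtain ⟨q, T⟩ := c
  have hh := h.head
  obtain ⟨hq, hT⟩ := h
  simp only at hq hh
  simp [TM0.step, hq, hh]

theorem dom_iff (l : List Γ) (s₀ : Λ × ℤ × (ℤ → Γ)) (h₀ : Rel (TM0.init l) s₀) :
    (TM0.eval M l).Dom ↔
      ∃ j, M ((astep M)^[j] s₀).1 (((astep M)^[j] s₀).2.2 ((astep M)^[j] s₀).2.1) = none := by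
  have h1 : (TM0.eval M l).Dom ↔ ∃ b, b ∈ StateTransition.eval (TM0.step M) (TM0.init l) := by
    rw [← Part.dom_iff_mem]; rfl
  rw [h1]
  constructor
  · rintro ⟨b, hb⟩
    obtain ⟨hr, hb'⟩ := StateTransition.mem_eval.mp hb
    have : ∃ j, Rel b ((astep M)^[j] s₀) := by
      clear hb hb'
      induction hr with
      | refl => exact ⟨0, h₀⟩
      | tail _ hbc ih =>
        obtain ⟨j, hj⟩ := ih
        exact ⟨j + 1, by rw [Function.iterate_succ_apply']; exact hj.step M hbc⟩
    obtain ⟨j, hj⟩ := this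
    exact ⟨j, (hj.step_none M).mp hb'⟩
  · rintro ⟨j, hj⟩
    have : ∀ j, ∃ b, StateTransition.Reaches (TM0.step M) (TM0.init l) b ∧
        (Rel b ((astep M)^[j] s₀) ∨ TM0.step M b = none) := by
      intro j
      induction j with
      | zero => exact ⟨_, Relation.ReflTransGen.refl, Or.inl h₀⟩
      | succ j ih =>
        obtain ⟨b, hb, h | h⟩ := ih
        · cases hs : TM0.step M b with
          | none => exact ⟨b, hb, Or.inr hs⟩
          | some b' =>
            refine ⟨b', Relation.ReflTransGen.tail hb hs, Or.inl ?_⟩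
            rw [Function.iterate_succ_apply']
            exact h.step M hs
        · exact ⟨b, hb, Or.inr h⟩
    obtain ⟨b, hb, h | h⟩ := this j
    · exact ⟨b, StateTransition.mem_eval.mpr ⟨hb, (h.step_none M).mpr hj⟩⟩
    · exact ⟨b, StateTransition.mem_eval.mpr ⟨hb, h⟩⟩

/-- What is seen at position `p`. -/
def view (s : Λ × ℤ × (ℤ → Γ)) (p : ℤ) : Γ × Option Λ :=
  (s.2.2 p, if p = s.2.1 then some s.1 else none)

/-- The state entering from a neighbour whose head moves in direction `d`. -/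
def enter (d : Dir) (x : Γ × Option Λ) : Option Λ :=
  match x.2 with
  | none => none
  | some q =>
    match M q x.1, d with
    | some (q', .move .left), .left => some q'
    | some (q', .move .right), .right => some q'
    | _, _ => none

/-- The local rule of the space-time diagram. -/
def rule (l c r : Γ × Option Λ) : Γ × Option Λ :=
  match c.2 with
  | none => (c.1, (enter M .right l).or (enter M .left r))
  | some q =>
    match M q c.1 with
    | none => c
    | some (_, .move _) => (c.1, none)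
    | some (q', .write a) => (a, some q')

omit [Inhabited Γ] in
theorem view_astep (s : Λ × ℤ × (ℤ → Γ)) (p : ℤ) :
    view (astep M s) p = rule M (view s (p - 1)) (view s p) (view s (p + 1)) := by
  obtain ⟨q, pos, T⟩ := s
  have hcase : p = pos ∨ p = pos + 1 ∨ p = pos - 1 ∨
      (p ≠ pos ∧ p - 1 ≠ pos ∧ p + 1 ≠ pos ∧ p ≠ pos + 1 ∧ p ≠ pos - 1) := by omega
  have e1 : pos ≠ pos - 1 := by omega
  have e2 : pos + 1 ≠ pos - 1 := by omega
  have e3 : pos + 1 + 1 ≠ pos := by omega
  have e4 : pos - 1 ≠ pos + 1 := by omega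
  have e5 : pos - 1 - 1 ≠ pos := by omega
  have e6 : pos - 1 ≠ pos := by omega
  rcases hM : M q (T pos) with _ | ⟨q', (_ | _) | a⟩ <;>
    rcases hcase with rfl | rfl | rfl | ⟨h0, h1, h2, h3, h4⟩ <;>
    simp [view, rule, astep, enter, *]

theorem astep_inv (S : Set Λ) (hS : TM0.Supports M S) (s : Λ × ℤ × (ℤ → Γ)) (j : ℤ)
    (h : s.1 ∈ S ∧ -j ≤ s.2.1 ∧ ∀ p, p < -j → s.2.2 p = default) :
    (astep M s).1 ∈ S ∧ -(j + 1) ≤ (astep M s).2.1 ∧
      ∀ p, p < -(j + 1) → (astep M s).2.2 p = default := by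
  obtain ⟨q, pos, T⟩ := s
  obtain ⟨h1, h2, h3⟩ := h
  simp only at h1 h2 h3
  unfold astep
  rcases hM : M q (T pos) with _ | ⟨q', (_ | _) | a⟩
  · exact ⟨h1, by simp only; omega, fun p hp => h3 p (by omega)⟩
  · exact ⟨hS.2 hM h1, by simp only; omega, fun p hp => h3 p (by omega)⟩
  · exact ⟨hS.2 hM h1, by simp only; omega, fun p hp => h3 p (by omega)⟩
  · refine ⟨hS.2 hM h1, by simp only; omega, fun p hp => ?_⟩
    simp only
    rw [Function.update_of_ne (by omega)]
    exact h3 p (by omega)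

/-- The initial absolute configuration. -/
def start (γ₁ γ₂ : Γ) (k : ℕ) : Λ × ℤ × (ℤ → Γ) :=
  (default, 0, fun p => if p = 0 then γ₁ else if 0 < p ∧ p ≤ k + 1 then γ₂ else default)

theorem rel_start (γ₁ γ₂ : Γ) (k : ℕ) :
    Rel (TM0.init (γ₁ :: List.replicate (k + 1) γ₂) : TM0.Cfg Γ Λ) (start γ₁ γ₂ k) := by
  refine ⟨rfl, fun n => ?_⟩
  simp only [TM0.init, start, zero_add]
  rcases n with n | n
  · simp only [Int.ofNat_eq_natCast, Tape.mk₁, Tape.mk₂, Tape.mk'_nth_nat, ListBlank.nth_mk]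
    rcases n with _ | n
    · simp
    · have h1 : ((n + 1 : ℕ) : ℤ) ≠ 0 := by omega
      rw [if_neg h1, List.getI_cons_succ, List.getI_eq_getElem?_getD, List.getElem?_replicate]
      by_cases hn : n < k + 1
      · rw [if_pos hn, if_pos (by omega)]; rfl
      · rw [if_neg hn, if_neg (by omega)]; rfl
  · have h1 : Int.negSucc n ≠ 0 := by omega
    rw [if_neg h1, if_neg (by omega)]
    rfl

end Abs

theorem exists_index {α : Type} {s : Set α} (hs : s.Finite) :
    ∃ (n : ℕ) (f : α → ℕ), Set.InjOn f s ∧ ∀ x ∈ s, f x < n := by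
  classical
  refine ⟨hs.toFinset.card, fun x => if h : x ∈ hs.toFinset then
    (hs.toFinset.equivFin ⟨x, h⟩ : ℕ) else 0, ?_, ?_⟩
  · intro x hx y hy hxy
    have hx' : x ∈ hs.toFinset := by simpa using hx
    have hy' : y ∈ hs.toFinset := by simpa using hy
    simp only [dif_pos hx', dif_pos hy'] at hxy
    have := hs.toFinset.equivFin.injective (Fin.ext hxy)
    exact congrArg Subtype.val this
  · intro x hx
    have hx' : x ∈ hs.toFinset := by simpa using hx
    simp only [dif_pos hx']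
    exact Fin.is_lt _

/-- An abstract cellular automaton that encodes halting. -/
theorem exists_automaton : ∃ (σ : Type) (Valid : Set σ) (z σ₁ σ₂ σ₃ : σ) (f : σ → σ → σ → σ)
    (Bad : σ → Prop) (cell : ℕ → ℕ → ℕ → σ), Valid.Finite ∧ f z z z = z ∧ ¬ Bad z ∧ σ₃ ≠ z ∧
      (∀ k j i, cell k j i ∈ Valid) ∧
      (∀ k i, cell k 0 i = if i < 2 then z else if i = 2 then σ₁ else if i < k + 4 then σ₂
        else σ₃) ∧
      (∀ k i, cell k 0 i = σ₃ → k + 4 ≤ i) ∧
      (∀ k j i, i < 2 → cell k j i = z) ∧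
      (∀ k j i, cell k (j + 1) (i + 2) = f (cell k j i) (cell k j (i + 1)) (cell k j (i + 2))) ∧
      ∀ k, Halts k ↔ ∃ j i, Bad (cell k j i) := by
  obtain ⟨Γ, Λ, _, _, _, M, S, γ₁, γ₂, hSfin, hS, hM⟩ := exists_machine
  let A : ℕ → ℕ → Λ × ℤ × (ℤ → Γ) := fun k j => (astep M)^[j] (start γ₁ γ₂ k)
  have hA : ∀ k j, A k (j + 1) = astep M (A k j) := fun k j => Function.iterate_succ_apply' _ _ _
  have hinv : ∀ k (j : ℕ), (A k j).1 ∈ S ∧ -(j : ℤ) ≤ (A k j).2.1 ∧
      ∀ p, p < -(j : ℤ) → (A k j).2.2 p = default := by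
    intro k j
    induction j with
    | zero =>
      refine ⟨hS.1, le_refl _, fun p hp => ?_⟩
      simp only [A, Function.iterate_zero, id, start]
      rw [if_neg (by omega), if_neg (by omega)]
    | succ j ih =>
      rw [hA]
      exact_mod_cast astep_inv M S hS _ _ ih
  refine ⟨(Γ × Option Λ) × Bool, (Set.univ ×ˢ (insert none (some '' S))) ×ˢ Set.univ,
    ((default, none), false), ((γ₁, some default), false), ((γ₂, none), false),
    ((default, none), true), fun l c r => (rule M l.1 c.1 r.1, false),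
    fun x => ∃ q, x.1.2 = some q ∧ M q x.1.1 = none,
    fun k j i => (view (A k j) ((i : ℤ) - 2 - j), decide (j = 0 ∧ k + 4 ≤ i)),
    ?_, ?_, ?_, ?_, ?_, ?_, ?_, ?_, ?_, ?_⟩
  · exact (Set.finite_univ.prod ((hSfin.image _).insert _)).prod Set.finite_univ
  · simp [rule, enter]
  · simp
  · simp
  · intro k j i
    refine ⟨⟨trivial, ?_⟩, trivial⟩
    simp only [view]
    split_ifs
    · exact Or.inr ⟨_, (hinv k j).1, rfl⟩
    · exact Or.inl rfl
  · intro k i
    simp only [A, Function.iterate_zero, id, start, view, Nat.cast_zero, sub_zero, true_and]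
    by_cases h1 : i < 2
    · rw [if_pos h1, if_neg (by omega), if_neg (by omega), if_neg (by omega)]
      simp; omega
    · rw [if_neg h1]
      by_cases h2 : i = 2
      · subst h2; simp
      · rw [if_neg h2, if_neg (by omega)]
        by_cases h3 : i < k + 4
        · rw [if_pos h3, if_pos (by omega), if_neg (by omega)]
          simp; omega
        · rw [if_neg h3, if_neg (by omega), if_neg (by omega)]
          simp; omega
  · intro k i h
    have := congrArg Prod.snd h
    simpa using this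
  · intro k j i hi
    obtain ⟨-, h2, h3⟩ := hinv k j
    simp only [view]
    rw [h3 _ (by omega), if_neg (by omega)]
    simp; omega
  · intro k j i
    simp only [hA, view_astep]
    have e1 : ((i + 2 : ℕ) : ℤ) - 2 - ((j + 1 : ℕ) : ℤ) - 1 = (i : ℤ) - 2 - j := by push_cast; ring
    have e2 : ((i + 2 : ℕ) : ℤ) - 2 - ((j + 1 : ℕ) : ℤ) = ((i + 1 : ℕ) : ℤ) - 2 - j := by
      push_cast; ring
    have e3 : ((i + 1 : ℕ) : ℤ) - 2 - j + 1 = ((i + 2 : ℕ) : ℤ) - 2 - j := by
      push_cast; ring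
    rw [e1, e2, e3]
    simp
  · intro k
    rw [← hM k, dom_iff M _ _ (rel_start γ₁ γ₂ k)]
    constructor
    · rintro ⟨j, hj⟩
      obtain ⟨-, h2, -⟩ := hinv k j
      refine ⟨j, ((A k j).2.1 + 2 + j).toNat, (A k j).1, ?_⟩
      have e : ((((A k j).2.1 + 2 + j).toNat : ℕ) : ℤ) - 2 - j = (A k j).2.1 := by omega
      simp only [view, e, if_true, true_and]
      exact hj
    · rintro ⟨j, i, q, h1, h2⟩
      refine ⟨j, ?_⟩
      simp only [view] at h1 h2
      split_ifs at h1 with h
      rw [h] at h2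
      obtain rfl := Option.some.inj h1
      exact h2

/-- The data of a binary tiling system encoding halting. -/
structure Tiling where
  t : ℕ
  c₁ : ℕ
  c₂ : ℕ
  c₃ : ℕ
  Ok : ℕ → ℕ → (ℕ → ℕ → Prop) → Prop
  ht : 3 ≤ t
  loc : ∀ p q β β', (∀ a < 3 * t, ∀ c < 2, β a c ↔ β' a c) → Ok p q β → Ok p q β'
  zero : ∀ p q, Ok p q fun _ _ => False
  nonhalt : ∀ k, ¬ Halts k → ∃ τ : ℕ → ℕ → Prop, (∀ d, τ d 0 ↔ bit t c₁ c₂ c₃ k d) ∧
    ∀ d e, Ok (ph t d) (ph t e) fun a c => τ (d + a) (e + c)
  halt : ∀ k, Halts k → ∃ N, ∀ β : ℕ → ℕ → Prop,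
    (∀ d < (k + 5) * t + 1, β d 0 ↔ bit t c₁ c₂ c₃ k d) →
    (∀ d e, d + 3 * t ≤ N → e + 2 ≤ N → Ok (ph t d) (ph t e) fun a c => β (d + a) (e + c)) → False

theorem ph_eq_one {t d : ℕ} (h : ph t d = 1) : ∃ i, d = i * t + 1 := by
  unfold ph at h
  split_ifs at h with h0
  refine ⟨(d - 1) / t, ?_⟩
  have := Nat.div_add_mod (d - 1) t
  have h2 : (d - 1) % t = 0 := by omega
  rw [h2, mul_comm] at this
  omega

theorem ph_eq_zero {t d : ℕ} (h : ph t d = 0) : d = 0 := by
  unfold ph at h
  split_ifs at h with h0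
  · exact h0

theorem ph_mul {t : ℕ} (i : ℕ) : ph t (i * t + 1) = 1 := by
  simp [ph]

theorem divmod {t : ℕ} (i s : ℕ) (hs : s < t) :
    (i * t + 1 + s - 1) / t = i ∧ (i * t + 1 + s - 1) % t = s := by
  have : i * t + 1 + s - 1 = s + t * i := by rw [mul_comm]; omega
  rw [this]
  refine ⟨?_, ?_⟩
  · rw [Nat.add_mul_div_left _ _ (by omega), Nat.div_eq_of_lt hs, zero_add]
  · rw [Nat.add_mul_mod_self_left, Nat.mod_eq_of_lt hs]

theorem nonempty_tiling : Nonempty Tiling := by
  classical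
  obtain ⟨σ, Valid, z, σ₁, σ₂, σ₃, f, Bad, cell, hfin, hz, hzb, hσ₃, hval, hrow, hend, hleft,
    hstep, hhalt⟩ := exists_automaton
  obtain ⟨n, idx, hidx, hlt⟩ := exists_index hfin
  set t := n + 3 with ht
  let code : σ → ℕ := fun x => if x = z then t else idx x
  have hcz : code z = t := if_pos rfl
  have hclt : ∀ x ∈ Valid, x ≠ z → code x < t := fun x hx hne => by
    simp only [code, if_neg hne]; have := hlt x hx; omega
  have hinj : ∀ x ∈ Valid, ∀ y ∈ Valid, (∀ s < t, code x = s ↔ code y = s) → x = y := by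
    intro x hx y hy h
    by_cases hxz : x = z
    · by_contra hne
      have hyz : y ≠ z := fun h => hne (hxz.trans h.symm)
      have := (h _ (hclt y hy hyz)).mpr rfl
      have h2 := hclt y hy hyz
      rw [hxz, hcz] at this
      omega
    · have h1 := (h _ (hclt x hx hxz)).mp rfl
      have hyz : y ≠ z := fun h => by
        have h2 := hclt x hx hxz
        rw [h, hcz] at h1
        omega
      simp only [code, if_neg hxz, if_neg hyz] at h1
      exact hidx hx hy h1.symm
  have hσ₃v : σ₃ ∈ Valid := by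
    have := hval 0 0 4
    rw [hrow] at this
    simpa using this
  have hzv : z ∈ Valid := by
    have := hval 0 0 0
    rwa [hleft 0 0 0 (by omega)] at this
  let Enc : (ℕ → ℕ → Prop) → ℕ → ℕ → σ → Prop := fun β a c x => ∀ s < t, β (a + s) c ↔ code x = s
  have hrc : ∀ k i, rowCode t (code σ₁) (code σ₂) (code σ₃) k i = code (cell k 0 i) := by
    intro k i
    rw [hrow, rowCode]
    split_ifs <;> simp [hcz]
  refine ⟨⟨t, code σ₁, code σ₂, code σ₃, fun p q β =>
    (p = 0 → ∀ a c, 1 ≤ a → a ≤ 2 * t → c < 2 → ¬ β a c) ∧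
    (p = 1 → ∀ x₀ ∈ Valid, ∀ x₁ ∈ Valid, ∀ x₂ ∈ Valid, Enc β 0 0 x₀ → Enc β t 0 x₁ →
      Enc β (2 * t) 0 x₂ → Enc β (2 * t) 1 (f x₀ x₁ x₂)) ∧
    (p = 1 → q = 0 → Enc β 0 0 σ₃ → Enc β t 0 σ₃) ∧
    (p = 1 → ∀ x ∈ Valid, Bad x → ¬ Enc β 0 0 x), by omega, ?_, ?_, ?_, ?_⟩⟩
  · intro p q β β' h ⟨h1, h2, h3, h4⟩
    have hE : ∀ a c x, a ≤ 2 * t → c < 2 → (Enc β a c x ↔ Enc β' a c x) := by
      intro a c x ha hc
      refine forall₂_congr fun s hs => ?_
      rw [h (a + s) (by omega) c hc]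
    refine ⟨fun hp a c ha ha' hc => ?_, fun hp x₀ hx₀ x₁ hx₁ x₂ hx₂ => ?_, fun hp hq => ?_,
      fun hp x hx hb => ?_⟩
    · rw [← h a (by omega) c hc]; exact h1 hp a c ha ha' hc
    · rw [← hE _ _ _ (by omega) (by omega), ← hE _ _ _ (by omega) (by omega),
        ← hE _ _ _ (by omega) (by omega), ← hE _ _ _ (by omega) (by omega)]
      exact h2 hp x₀ hx₀ x₁ hx₁ x₂ hx₂
    · rw [← hE _ _ _ (by omega) (by omega), ← hE _ _ _ (by omega) (by omega)]
      exact h3 hp hq
    · rw [← hE _ _ _ (by omega) (by omega)]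
      exact h4 hp x hx hb
  · intro p q
    have hE : ∀ a c, ∀ x ∈ Valid, Enc (fun _ _ => False) a c x → x = z := by
      intro a c x hx h
      by_contra hne
      exact (h _ (hclt x hx hne)).mpr rfl
    refine ⟨fun _ _ _ _ _ _ h => h, fun _ x₀ hx₀ x₁ hx₁ x₂ hx₂ h0 h1 h2 => ?_, fun _ _ h => ?_,
      fun _ x hx hb h => ?_⟩
    · rw [hE 0 0 _ hx₀ h0, hE t 0 _ hx₁ h1, hE (2 * t) 0 _ hx₂ h2, hz]
      intro s hs
      rw [hcz]
      exact ⟨False.elim, fun h => by omega⟩
    · exact absurd (hE 0 0 _ hσ₃v h) hσ₃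
    · exact hzb (hE 0 0 _ hx h ▸ hb)
  · intro k hk
    let τ : ℕ → ℕ → Prop := fun d e => d ≠ 0 ∧ (d - 1) % t = code (cell k e ((d - 1) / t))
    refine ⟨τ, fun d => by simp only [τ, bit, hrc], fun d e => ?_⟩
    have hE : ∀ i m c x, Enc (fun a c => τ (i * t + 1 + a) (e + c)) (m * t) c x ↔
        ∀ s < t, code (cell k (e + c) (i + m)) = s ↔ code x = s := by
      intro i m c x
      refine forall₂_congr fun s hs => ?_
      have e1 : i * t + 1 + (m * t + s) = (i + m) * t + 1 + s := by ring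
      obtain ⟨e2, e3⟩ := divmod (i + m) s hs
      simp only [τ, e1, e2, e3]
      rw [and_iff_right (by omega), eq_comm]
    have hE' : ∀ i m c, ∀ x ∈ Valid, Enc (fun a c => τ (i * t + 1 + a) (e + c)) (m * t) c x →
        x = cell k (e + c) (i + m) := fun i m c x hx h =>
      (hinj _ (hval _ _ _) _ hx ((hE i m c x).mp h)).symm
    refine ⟨fun hp a c ha ha' hc => ?_, fun hp x₀ hx₀ x₁ hx₁ x₂ hx₂ h0 h1 h2 => ?_,
      fun hp hq h => ?_, fun hp x hx hb h => ?_⟩
    · rw [ph_eq_zero hp]
      rintro ⟨-, h⟩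
      rw [zero_add] at h
      have h1 : (a - 1) / t < 2 := by
        rw [Nat.div_lt_iff_lt_mul (by omega)]; omega
      rw [hleft _ _ _ h1, hcz] at h
      have := Nat.mod_lt (a - 1) (show t > 0 by omega)
      omega
    · obtain ⟨i, rfl⟩ := ph_eq_one hp
      have e0 := hE' i 0 0 x₀ hx₀ (by simpa using h0)
      have e1 := hE' i 1 0 x₁ hx₁ (by simpa using h1)
      have e2 := hE' i 2 0 x₂ hx₂ h2
      rw [hE i 2 1, hstep, e0, e1, e2]
      intro s _
      rfl
    · obtain ⟨i, rfl⟩ := ph_eq_one hp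
      obtain rfl := ph_eq_zero hq
      have e0 := hE' i 0 0 σ₃ hσ₃v (by simpa using h)
      have h1 := hend k i e0.symm
      have h2 := (hE i 1 0 σ₃).mpr (by
        intro s _
        rw [hrow, if_neg (by omega), if_neg (by omega), if_neg (by omega)])
      simpa using h2
    · obtain ⟨i, rfl⟩ := ph_eq_one hp
      have e0 := hE' i 0 0 x hx (by simpa using h)
      exact hk ((hhalt k).mpr ⟨_, _, e0 ▸ hb⟩)
  · intro k hk
    obtain ⟨j₀, i₀, hbad⟩ := (hhalt k).mp hk
    refine ⟨(i₀ + 4) * t + j₀ + 3, fun β hβ hOk => ?_⟩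
    have hbound : ∀ i ≤ i₀, i * t + 1 + 3 * t ≤ (i₀ + 4) * t + j₀ + 3 := by
      intro i hi
      have := Nat.mul_le_mul_right t hi
      have e : (i₀ + 4) * t = i₀ * t + 4 * t := by ring
      omega
    have key : ∀ j ≤ j₀, ∀ i ≤ i₀, ∀ s < t, β (i * t + 1 + s) j ↔ code (cell k j i) = s := by
      intro j
      induction j with
      | zero =>
        intro _ i
        induction i with
        | zero =>
          intro _ s hs
          obtain ⟨e2, e3⟩ := divmod 0 s hs
          rw [hβ _ (by nlinarith), bit, e2, e3, hrc, and_iff_right (by omega), eq_comm]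
        | succ i ih =>
          intro hi s hs
          by_cases hik : i + 1 ≤ k + 4
          · obtain ⟨e2, e3⟩ := divmod (i + 1) s hs
            have := Nat.mul_le_mul_right t hik
            have e : (k + 5) * t = (k + 4) * t + t := by ring
            rw [hβ _ (by omega), bit, e2, e3, hrc, and_iff_right (by omega), eq_comm]
          · have h3 := (hOk (i * t + 1) 0 (hbound i (by omega)) (by omega)).2.2.1 (ph_mul i) rfl
            have hc : ∀ i, k + 4 ≤ i → cell k 0 i = σ₃ := fun i hi => by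
              rw [hrow, if_neg (by omega), if_neg (by omega), if_neg (by omega)]
            have h4 := h3 (fun s hs => by
              have := ih (by omega) s hs
              rw [hc i (by omega)] at this
              simpa using this) s hs
            rw [hc _ (by omega)]
            have e : (i + 1) * t + 1 + s = i * t + 1 + (t + s) := by ring
            rw [e]
            simpa using h4
      | succ j ih =>
        intro hj i hi s hs
        by_cases hi2 : i < 2
        · have h1 := (hOk 0 j (by have := hbound 0 (by omega); omega) (by omega)).1 rfl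
            (i * t + 1 + s) 1 (by omega) (by
              have : i * t ≤ 1 * t := Nat.mul_le_mul_right t (by omega)
              omega) (by omega)
          rw [hleft _ _ _ hi2, hcz]
          simp only [zero_add] at h1
          exact ⟨fun h => absurd h h1, fun h => by omega⟩
        · obtain ⟨i, rfl⟩ : ∃ i', i = i' + 2 := ⟨i - 2, by omega⟩
          have h2 := (hOk (i * t + 1) j (hbound i (by omega)) (by omega)).2.1 (ph_mul i)
            _ (hval k j i) _ (hval k j (i + 1)) _ (hval k j (i + 2))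
            (fun s hs => by simpa using ih (by omega) i (by omega) s hs)
            (fun s hs => by
              have e : i * t + 1 + (t + s) = (i + 1) * t + 1 + s := by ring
              simpa [e] using ih (by omega) (i + 1) (by omega) s hs)
            (fun s hs => by
              have e : i * t + 1 + (2 * t + s) = (i + 2) * t + 1 + s := by ring
              simpa [e] using ih (by omega) (i + 2) (by omega) s hs) s hs
          have e : i * t + 1 + (2 * t + s) = (i + 2) * t + 1 + s := by ring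
          rw [hstep]
          simpa [e] using h2
    exact (hOk (i₀ * t + 1) j₀ (hbound i₀ le_rfl) (by omega)).2.2.2 (ph_mul i₀) _ (hval k j₀ i₀)
      hbad (fun s hs => by simpa using key j₀ le_rfl i₀ le_rfl s hs)

end Pool.Agent.Lib.MP_451b27_lc
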