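import Mathlib
import Pool.Agent.Lib.MP_451b27_lc.Defs
import Pool.Agent.Lib.MP_451b27_lc.Tiling

/-! Local rules on graphs, their transfer along partial isomorphisms and their locality. -/

namespace Pool.Agent.Lib.MP_451b27_lc

/-- Size of the first clique marking the role `(σ, p)`. -/
def sz (σ : Bool) (p : ℕ) : ℕ := 3 + 2 * p + σ.toNat

/-- Total size of the two cliques marking a role. -/
def Q (t : ℕ) : ℕ := 4 * t + 9

section Defs

variable (t : ℕ) {V : Type} (G : SimpleGraph V) (s : Set V)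

/-- `x` sees two cliques of sizes `sz σ p` and `Q t - sz σ p` with no edge between them. -/
def Role (σ : Bool) (p : ℕ) (x : V) : Prop :=
  p ≤ t ∧ x ∈ s ∧ ∃ K : ℕ → V, (∀ i < Q t, K i ∈ s ∧ G.Adj x (K i)) ∧
    ∀ i < Q t, ∀ j < Q t, i ≠ j → (G.Adj (K i) (K j) ↔ (i < sz σ p ↔ j < sz σ p))

/-- `x` and `y` have two adjacent common neighbours. -/
def Link (x y : V) : Prop :=
  ∃ u ∈ s, ∃ v ∈ s, G.Adj u v ∧ G.Adj x u ∧ G.Adj x v ∧ G.Adj y u ∧ G.Adj y v

/-- `y` follows `x` on side `σ`. -/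
def Succ (σ : Bool) (x y : V) : Prop :=
  ∃ p, Role t G s σ p x ∧ Role t G s σ (p % t + 1) y ∧ Link G s x y

/-- `u` lies in a triangle with a vertex that has a role on side `σ`. -/
def Gad (σ : Bool) (u : V) : Prop :=
  u ∈ s ∧ ∃ x p, ∃ w ∈ s, Role t G s σ p x ∧ G.Adj x u ∧ G.Adj x w ∧ G.Adj u w

end Defs

/-- The rules that do not depend on the input. -/
structure Rules (T : Tiling) {V : Type} (G : SimpleGraph V) (s : Set V) : Prop where
  excl : ∀ σ p σ' p' x, Role T.t G s σ p x → Role T.t G s σ' p' x → σ = σ' ∧ p = p'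
  indep : ∀ σ p p' x y, Role T.t G s σ p x → Role T.t G s σ p' y → ¬ G.Adj x y
  gadRole : ∀ σ σ' p u, Gad T.t G s σ u → ¬ Role T.t G s σ' p u
  gad₁ : ∀ σ p u v, Gad T.t G s σ u → Role T.t G s (!σ) p v → ¬ G.Adj u v
  gad₂ : ∀ σ u v, Gad T.t G s σ u → Gad T.t G s (!σ) v → ¬ G.Adj u v
  twin : ∀ σ x y y', ∀ z ∈ s, Succ T.t G s σ y x → Succ T.t G s σ y' x → G.Adj y z → G.Adj y' z
  window : ∀ (x b : ℕ → V) p q, Role T.t G s true p (x 0) →
    (∀ a, a + 1 < 3 * T.t → Succ T.t G s true (x a) (x (a + 1))) →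
    Role T.t G s false q (b 0) → Succ T.t G s false (b 0) (b 1) →
    T.Ok p q fun a c => G.Adj (x a) (b c)

/-- `φ` maps `s` into `s'` and preserves adjacency and non-adjacency on `s`. -/
def Iso {V V' : Type} (G : SimpleGraph V) (s : Set V) (G' : SimpleGraph V') (s' : Set V')
    (φ : V → V') : Prop :=
  (∀ u ∈ s, φ u ∈ s') ∧ ∀ u ∈ s, ∀ v ∈ s, (G.Adj u v ↔ G'.Adj (φ u) (φ v))

section Transfer

variable {t : ℕ} {V V' : Type} {G : SimpleGraph V} {s : Set V} {G' : SimpleGraph V'} {s' : Set V'}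
  {φ : V → V'}

theorem Role.mem {σ p x} (h : Role t G s σ p x) : x ∈ s := h.2.1

theorem Succ.mem_left {σ x y} (h : Succ t G s σ x y) : x ∈ s := h.choose_spec.1.mem

theorem Succ.mem_right {σ x y} (h : Succ t G s σ x y) : y ∈ s := h.choose_spec.2.1.mem

theorem Role.map (hφ : Iso G s G' s' φ) {σ p x} (h : Role t G s σ p x) :
    Role t G' s' σ p (φ x) := by
  obtain ⟨h1, h2, K, h3, h4⟩ := h
  refine ⟨h1, hφ.1 _ h2, fun i => φ (K i), fun i hi => ⟨hφ.1 _ (h3 i hi).1, ?_⟩,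
    fun i hi j hj hij => ?_⟩
  · exact (hφ.2 _ h2 _ (h3 i hi).1).mp (h3 i hi).2
  · rw [← hφ.2 _ (h3 i hi).1 _ (h3 j hj).1]
    exact h4 i hi j hj hij

theorem Link.map (hφ : Iso G s G' s' φ) {x y} (hx : x ∈ s) (hy : y ∈ s) (h : Link G s x y) :
    Link G' s' (φ x) (φ y) := by
  obtain ⟨u, hu, v, hv, h1, h2, h3, h4, h5⟩ := h
  exact ⟨φ u, hφ.1 _ hu, φ v, hφ.1 _ hv, (hφ.2 _ hu _ hv).mp h1, (hφ.2 _ hx _ hu).mp h2,
    (hφ.2 _ hx _ hv).mp h3, (hφ.2 _ hy _ hu).mp h4, (hφ.2 _ hy _ hv).mp h5⟩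

theorem Succ.map (hφ : Iso G s G' s' φ) {σ x y} (h : Succ t G s σ x y) :
    Succ t G' s' σ (φ x) (φ y) := by
  obtain ⟨p, h1, h2, h3⟩ := h
  exact ⟨p, h1.map hφ, h2.map hφ, h3.map hφ h1.mem h2.mem⟩

theorem Gad.map (hφ : Iso G s G' s' φ) {σ u} (h : Gad t G s σ u) : Gad t G' s' σ (φ u) := by
  obtain ⟨hu, x, p, w, hw, h1, h2, h3, h4⟩ := h
  exact ⟨hφ.1 _ hu, φ x, p, φ w, hφ.1 _ hw, h1.map hφ, (hφ.2 _ h1.mem _ hu).mp h2,
    (hφ.2 _ h1.mem _ hw).mp h3, (hφ.2 _ hu _ hw).mp h4⟩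

theorem path_mem {σ} {x : ℕ → V} {n : ℕ} (h0 : x 0 ∈ s)
    (h : ∀ a, a + 1 < n → Succ t G s σ (x a) (x (a + 1))) : ∀ a < n, x a ∈ s := by
  intro a ha
  rcases a with _ | a
  · exact h0
  · exact (h a ha).mem_right

theorem Rules.comap {T : Tiling} (hφ : Iso G s G' s' φ) (h : Rules T G' s') : Rules T G s where
  excl σ p σ' p' _ h1 h2 := h.excl σ p σ' p' _ (h1.map hφ) (h2.map hφ)
  indep σ p p' _ _ h1 h2 h3 :=
    h.indep σ p p' _ _ (h1.map hφ) (h2.map hφ) ((hφ.2 _ h1.mem _ h2.mem).mp h3)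
  gadRole σ σ' p _ h1 h2 := h.gadRole σ σ' p _ (h1.map hφ) (h2.map hφ)
  gad₁ σ p _ _ h1 h2 h3 :=
    h.gad₁ σ p _ _ (h1.map hφ) (h2.map hφ) ((hφ.2 _ h1.1 _ h2.mem).mp h3)
  gad₂ σ _ _ h1 h2 h3 :=
    h.gad₂ σ _ _ (h1.map hφ) (h2.map hφ) ((hφ.2 _ h1.1 _ h2.1).mp h3)
  twin σ _ _ _ _ hz h1 h2 h3 :=
    (hφ.2 _ h2.mem_left _ hz).mpr
      (h.twin σ _ _ _ _ (hφ.1 _ hz) (h1.map hφ) (h2.map hφ) ((hφ.2 _ h1.mem_left _ hz).mp h3))
  window x b p q h1 h2 h3 h4 := by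
    have := h.window (fun a => φ (x a)) (fun c => φ (b c)) p q (h1.map hφ)
      (fun a ha => (h2 a ha).map hφ) (h3.map hφ) (h4.map hφ)
    refine T.loc p q _ _ (fun a ha c hc => ?_) this
    have hb : b c ∈ s := by
      rcases c with _ | _ | c
      · exact h4.mem_left
      · exact h4.mem_right
      · omega
    exact (hφ.2 _ (path_mem h1.mem h2 a ha) _ hb).symm

theorem iso_comap (G' : SimpleGraph V') (φ : V → V') :
    Iso (G'.comap φ) Set.univ G' Set.univ φ :=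
  ⟨fun _ _ => trivial, fun _ _ _ _ => Iff.rfl⟩

theorem rules_empty (T : Tiling) (G : SimpleGraph V) : Rules T G ∅ where
  excl _ _ _ _ _ h := h.mem.elim
  indep _ _ _ _ _ h := h.mem.elim
  gadRole _ _ _ _ h := h.1.elim
  gad₁ _ _ _ _ h := h.1.elim
  gad₂ _ _ _ h := h.1.elim
  twin _ _ _ _ _ h := h.elim
  window _ _ _ _ h := h.mem.elim

end Transfer

section Locality

variable {V : Type}

/-- `Φ` holds for every set containing some fixed finite set with at most `K` elements. -/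
def Sup (K : ℕ) (Φ : Set V → Prop) : Prop :=
  ∃ f : Finset V, f.card ≤ K ∧ ∀ s : Set V, ↑f ⊆ s → Φ s

theorem Sup.and {K K' : ℕ} {Φ Ψ : Set V → Prop} (h : Sup K Φ) (h' : Sup K' Ψ) :
    Sup (K + K') fun s => Φ s ∧ Ψ s := by
  classical
  obtain ⟨f, hf, h⟩ := h
  obtain ⟨f', hf', h'⟩ := h'
  refine ⟨f ∪ f', (Finset.card_union_le _ _).trans (by omega), fun s hs => ?_⟩
  rw [Finset.coe_union, Set.union_subset_iff] at hs
  exact ⟨h s hs.1, h' s hs.2⟩

theorem Sup.mono {K K' : ℕ} {Φ Ψ : Set V → Prop} (h : Sup K Φ) (hK : K ≤ K')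
    (hΦ : ∀ s, Φ s → Ψ s) : Sup K' Ψ := by
  obtain ⟨f, hf, h⟩ := h
  exact ⟨f, hf.trans hK, fun s hs => hΦ s (h s hs)⟩

theorem sup_mem (x : V) : Sup 1 fun s => x ∈ s :=
  ⟨{x}, by simp, fun s hs => hs (by simp)⟩

theorem sup_forall {K : ℕ} {Φ : ℕ → Set V → Prop} (n : ℕ) (h : ∀ a < n, Sup K (Φ a)) :
    Sup (n * K) fun s => ∀ a < n, Φ a s := by
  induction n with
  | zero => exact ⟨∅, by simp, fun s _ a ha => by omega⟩
  | succ n ih =>
    refine ((ih fun a ha => h a (by omega)).and (h n (by omega))).mono (by rw [Nat.succ_mul]) ?_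
    rintro s ⟨h1, h2⟩ a ha
    rcases Nat.lt_succ_iff_lt_or_eq.mp ha with ha | rfl
    · exact h1 a ha
    · exact h2

variable {t : ℕ} {G : SimpleGraph V}

theorem Role.sup {σ p x} (h : Role t G Set.univ σ p x) :
    Sup (Q t + 1) fun s => Role t G s σ p x := by
  obtain ⟨h1, -, K, h3, h4⟩ := h
  refine ((sup_forall (Q t) fun a _ => sup_mem (K a)).and (sup_mem x)).mono (by omega) ?_
  rintro s ⟨h5, h6⟩
  exact ⟨h1, h6, K, fun i hi => ⟨h5 i hi, (h3 i hi).2⟩, h4⟩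

theorem Succ.sup {σ x y} (h : Succ t G Set.univ σ x y) :
    Sup (2 * Q t + 4) fun s => Succ t G s σ x y := by
  obtain ⟨p, h1, h2, u, -, v, -, h3⟩ := h
  refine ((h1.sup.and h2.sup).and ((sup_mem u).and (sup_mem v))).mono (by omega) ?_
  rintro s ⟨⟨h4, h5⟩, h6, h7⟩
  exact ⟨p, h4, h5, u, h6, v, h7, h3⟩

theorem Gad.sup {σ u} (h : Gad t G Set.univ σ u) :
    Sup (Q t + 3) fun s => Gad t G s σ u := by
  obtain ⟨-, x, p, w, -, h1, h2⟩ := h
  refine (h1.sup.and ((sup_mem u).and (sup_mem w))).mono (by omega) ?_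
  rintro s ⟨h4, h6, h7⟩
  exact ⟨h6, x, p, w, h7, h4, h2⟩

theorem rules_of_local {T : Tiling}
    (h : ∀ f : Finset V, f.card ≤ (3 * T.t + 3) * (2 * Q T.t + 4) → Rules T G ↑f) :
    Rules T G Set.univ := by
  have e : (3 * T.t + 3) * (2 * Q T.t + 4) = 3 * T.t * (2 * Q T.t + 4) + (6 * Q T.t + 12) := by
    ring
  refine ⟨fun σ p σ' p' x h1 h2 => ?_, fun σ p p' x y h1 h2 => ?_, fun σ σ' p u h1 h2 => ?_,
    fun σ p u v h1 h2 => ?_, fun σ u v h1 h2 => ?_, fun σ x y y' z _ h1 h2 => ?_,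
    fun x b p q h1 h2 h3 h4 => ?_⟩
  · obtain ⟨f, hf, hs⟩ := h1.sup.and h2.sup
    obtain ⟨h3, h4⟩ := hs _ subset_rfl
    exact (h f (by omega)).excl _ _ _ _ _ h3 h4
  · obtain ⟨f, hf, hs⟩ := h1.sup.and h2.sup
    obtain ⟨h3, h4⟩ := hs _ subset_rfl
    exact (h f (by omega)).indep _ _ _ _ _ h3 h4
  · obtain ⟨f, hf, hs⟩ := h1.sup.and h2.sup
    obtain ⟨h3, h4⟩ := hs _ subset_rfl
    exact (h f (by omega)).gadRole _ _ _ _ h3 h4
  · obtain ⟨f, hf, hs⟩ := h1.sup.and h2.sup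
    obtain ⟨h3, h4⟩ := hs _ subset_rfl
    exact (h f (by omega)).gad₁ _ _ _ _ h3 h4
  · obtain ⟨f, hf, hs⟩ := h1.sup.and h2.sup
    obtain ⟨h3, h4⟩ := hs _ subset_rfl
    exact (h f (by omega)).gad₂ _ _ _ h3 h4
  · obtain ⟨f, hf, hs⟩ := (h1.sup.and h2.sup).and (sup_mem z)
    obtain ⟨⟨h3, h4⟩, h5⟩ := hs _ subset_rfl
    exact (h f (by omega)).twin _ _ _ _ _ h5 h3 h4
  · have h5 : Sup (3 * T.t * (2 * Q T.t + 4)) fun s => ∀ a < 3 * T.t,
        (a + 1 < 3 * T.t → Succ T.t G s true (x a) (x (a + 1))) := by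
      refine sup_forall _ fun a _ => ?_
      by_cases ha : a + 1 < 3 * T.t
      · exact (h2 a ha).sup.mono le_rfl fun s hs _ => hs
      · exact ⟨∅, by simp, fun s _ h => absurd h ha⟩
    obtain ⟨f, hf, hs⟩ := (h1.sup.and h5).and (h3.sup.and h4.sup)
    obtain ⟨⟨h6, h7⟩, h8, h9⟩ := hs _ subset_rfl
    exact (h f (by omega)).window x b p q h6 (fun a ha => h7 a (by omega) ha) h8 h9

end Locality

theorem exists_code {m : ℕ} (H : SimpleGraph (Fin m)) :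
    ∃ l : List (ℕ × ℕ), decode (m, l) = H := by
  classical
  refine ⟨((Finset.univ.filter fun p : Fin m × Fin m => H.Adj p.1 p.2).toList).map
    fun p => (p.1.val, p.2.val), ?_⟩
  ext i j
  have key : ∀ a b : Fin m, (a.val, b.val) ∈
      ((Finset.univ.filter fun p : Fin m × Fin m => H.Adj p.1 p.2).toList).map
        (fun p => (p.1.val, p.2.val)) ↔ H.Adj a b := by
    intro a b
    simp only [List.mem_map, Finset.mem_toList, Finset.mem_filter, Finset.mem_univ, true_and,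
      Prod.mk.injEq]
    constructor
    · rintro ⟨p, hp, h1, h2⟩
      rwa [← Fin.ext h1, ← Fin.ext h2]
    · intro h
      exact ⟨(a, b), h, rfl, rfl⟩
  refine (SimpleGraph.fromRel_adj _ i j).trans ?_
  rw [key i j, key j i]
  exact ⟨fun h => h.2.elim id fun h => h.symm, fun h => ⟨h.ne, Or.inl h⟩⟩

theorem iso_of_embedding {V V' : Type} {G : SimpleGraph V} {G' : SimpleGraph V'} (e : G ↪g G') :
    Iso G Set.univ G' Set.univ e :=
  ⟨fun _ _ => trivial, fun _ _ _ _ => e.map_adj_iff.symm⟩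

/-- The rules are given by finitely many forbidden induced subgraphs. -/
theorem exists_forbidden (T : Tiling) : ∃ F₀ : List (ℕ × List (ℕ × ℕ)),
    ∀ {V : Type} (G : SimpleGraph V), Free F₀ G ↔ Rules T G Set.univ := by
  classical
  choose cd hcd using fun m => @exists_code m
  have hfin : (⋃ m ∈ Set.Iic ((3 * T.t + 3) * (2 * Q T.t + 4)),
      (fun H => ((m, cd m H) : ℕ × List (ℕ × ℕ))) ''
        {H : SimpleGraph (Fin m) | ¬ Rules T H Set.univ}).Finite :=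
    (Set.finite_Iic _).biUnion fun m _ => (Set.toFinite _).image _
  refine ⟨hfin.toFinset.toList, fun {V} G => ⟨fun h => ?_, fun h c hc => ?_⟩⟩
  · refine rules_of_local fun f hf => ?_
    rcases f.eq_empty_or_nonempty with rfl | ⟨x₀, hx₀⟩
    · rw [Finset.coe_empty]; exact rules_empty T G
    let e := f.equivFin
    let H : SimpleGraph (Fin f.card) := G.comap fun i => (e.symm i : V)
    have hH : Rules T H Set.univ := by
      by_contra hH
      have hmem : ((f.card, cd _ H) : ℕ × List (ℕ × ℕ)) ∈ hfin.toFinset.toList := by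
        rw [Finset.mem_toList, Set.Finite.mem_toFinset]
        exact Set.mem_biUnion (show f.card ∈ Set.Iic _ from hf) ⟨H, hH, rfl⟩
      have := h _ hmem
      rw [hcd] at this
      exact this.elim ⟨⟨fun i => (e.symm i : V), fun i j hij =>
        e.symm.injective (Subtype.ext hij)⟩, Iff.rfl⟩
    refine Rules.comap (φ := fun v => if hv : v ∈ f then e ⟨v, hv⟩ else e ⟨x₀, hx₀⟩)
      (s' := Set.univ) ⟨fun _ _ => trivial, fun u hu v hv => ?_⟩ hH
    have hu' : u ∈ f := hu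
    have hv' : v ∈ f := hv
    simp [H, hu', hv']
  · rw [Finset.mem_toList, Set.Finite.mem_toFinset] at hc
    simp only [Set.mem_iUnion] at hc
    obtain ⟨m, -, H, hH, rfl⟩ := hc
    refine ⟨fun e => hH ?_⟩
    have := h.comap (iso_of_embedding e)
    rwa [hcd] at this

end Pool.Agent.Lib.MP_451b27_lc
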