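import Mathlib
import Pool.Agent.Lib.MP_451b27_lc.Rules

/-! The canonical rays and the distance from the origin. -/

namespace Pool.Agent.Lib.MP_451b27_lc

/-- Adjacency in the canonical ray of side `σ`: vertex `(i, 0)` is the `i`-th spine vertex,
`(i, 1), …, (i, Q)` form its two cliques and `(i, Q + 1), (i, Q + 2)` link it to `(i + 1, 0)`. -/
def canAdj (t : ℕ) (σ : Bool) (u v : ℕ × ℕ) : Prop :=
  (u.1 = v.1 ∧ u.2 ≠ v.2 ∧ u.2 < Q t + 3 ∧ v.2 < Q t + 3 ∧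
    (u.2 = 0 ∨ v.2 = 0 ∨ (u.2 ≤ sz σ (ph t u.1) ∧ v.2 ≤ sz σ (ph t u.1)) ∨
      (sz σ (ph t u.1) < u.2 ∧ u.2 ≤ Q t ∧ sz σ (ph t u.1) < v.2 ∧ v.2 ≤ Q t) ∨
      (Q t < u.2 ∧ Q t < v.2))) ∨
  (v.1 = u.1 + 1 ∧ v.2 = 0 ∧ Q t < u.2 ∧ u.2 < Q t + 3) ∨
  (u.1 = v.1 + 1 ∧ u.2 = 0 ∧ Q t < v.2 ∧ v.2 < Q t + 3)

theorem canAdj_symm {t σ u v} (h : canAdj t σ u v) : canAdj t σ v u := by
  obtain ⟨i, o⟩ := u
  obtain ⟨i', o'⟩ := v
  unfold canAdj at h ⊢
  simp only at h ⊢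
  rcases h with ⟨rfl, h⟩ | h | h <;> omega

theorem canAdj_same {t σ i o o'} : canAdj t σ (i, o) (i, o') ↔
    (o ≠ o' ∧ o < Q t + 3 ∧ o' < Q t + 3 ∧
      (o = 0 ∨ o' = 0 ∨ (o ≤ sz σ (ph t i) ∧ o' ≤ sz σ (ph t i)) ∨
      (sz σ (ph t i) < o ∧ o ≤ Q t ∧ sz σ (ph t i) < o' ∧ o' ≤ Q t) ∨ (Q t < o ∧ Q t < o'))) := by
  unfold canAdj
  simp

theorem canAdj_irrefl {t σ u} : ¬ canAdj t σ u u := by
  unfold canAdj
  omega

/-- The canonical ray. -/
def can (t : ℕ) (σ : Bool) : SimpleGraph (ℕ × ℕ) where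
  Adj := canAdj t σ
  symm := ⟨fun _ _ => canAdj_symm⟩
  loopless := ⟨fun _ => canAdj_irrefl⟩

theorem ph_le {t : ℕ} (ht : 3 ≤ t) (i : ℕ) : ph t i ≤ t := by
  unfold ph
  split_ifs
  · omega
  · exact Nat.mod_lt _ (by omega)

theorem ph_succ {t : ℕ} (i : ℕ) : ph t (i + 1) = ph t i % t + 1 := by
  rcases i with _ | i
  · simp [ph]
  · simp [ph]

theorem sz_bounds {t : ℕ} (σ : Bool) {p : ℕ} (hp : p ≤ t) : 3 ≤ sz σ p ∧ 2 * sz σ p < Q t := by
  unfold sz Q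
  cases σ <;> simp <;> omega

theorem sz_inj {σ σ' : Bool} {p p' : ℕ} (h : sz σ p = sz σ' p') : σ = σ' ∧ p = p' := by
  unfold sz at h
  cases σ <;> cases σ' <;> simp at h ⊢ <;> omega

theorem can_role {t : ℕ} (ht : 3 ≤ t) (σ : Bool) {s : Set (ℕ × ℕ)} {i : ℕ}
    (hs : ∀ o < Q t + 3, (i, o) ∈ s) : Role t (can t σ) s σ (ph t i) (i, 0) := by
  have hb := sz_bounds σ (ph_le ht i)
  refine ⟨ph_le ht i, hs 0 (by omega), fun j => (i, j + 1), fun j hj => ⟨hs _ (by omega), ?_⟩,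
    fun j hj j' hj' hne => ?_⟩
  · show canAdj t σ _ _
    unfold canAdj; dsimp only; omega
  · show canAdj t σ _ _ ↔ _
    unfold canAdj; dsimp only; omega

theorem card_le_of_inj {a lo hi : ℕ} (b : ℕ) (g : ℕ → ℕ)
    (hinj : ∀ j, b ≤ j → j < b + a → ∀ j', b ≤ j' → j' < b + a → g j = g j' → j = j')
    (hr : ∀ j, b ≤ j → j < b + a → lo < g j ∧ g j ≤ hi) : a ≤ hi - lo := by
  have := Finset.card_le_card_of_injOn (s := Finset.Ico b (b + a)) (t := Finset.Ioc lo hi) g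
    (fun j hj => by
      rw [Finset.mem_coe, Finset.mem_Ico] at hj
      rw [Finset.mem_coe, Finset.mem_Ioc]
      exact hr j hj.1 hj.2)
    (fun j hj j' hj' h => by
      rw [Finset.mem_coe, Finset.mem_Ico] at hj hj'
      exact hinj j hj.1 hj.2 j' hj'.1 hj'.2 h)
  simpa using this

/-- A clique with at least three vertices in the neighbourhood of a spine vertex lies in one of
its two marking cliques. -/
theorem clique_in_nbhd {t : ℕ} (ht : 3 ≤ t) {σ : Bool} {i : ℕ}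
    {a b c : ℕ × ℕ} (ha : canAdj t σ (i, 0) a) (hb : canAdj t σ (i, 0) b)
    (hc : canAdj t σ (i, 0) c) (hab : canAdj t σ a b) (hac : canAdj t σ a c)
    (hbc : canAdj t σ b c) : a.1 = i ∧ 0 < a.2 ∧ a.2 ≤ Q t := by
  obtain ⟨a1, a2⟩ := a
  obtain ⟨b1, b2⟩ := b
  obtain ⟨c1, c2⟩ := c
  have h1 := sz_bounds σ (ph_le ht a1)
  have h2 := sz_bounds σ (ph_le ht b1)
  unfold canAdj at *
  dsimp only at *
  omega

theorem can_role_inv {t : ℕ} (ht : 3 ≤ t) {σ σ' : Bool} {s : Set (ℕ × ℕ)} {p : ℕ} {u : ℕ × ℕ}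
    (h : Role t (can t σ) s σ' p u) : u.2 = 0 ∧ σ' = σ ∧ p = ph t u.1 := by
  obtain ⟨i, o⟩ := u
  obtain ⟨hp, -, K, hK, hKK⟩ := h
  have hb := sz_bounds σ (ph_le ht i)
  have hb' := sz_bounds σ' hp
  set a' := sz σ' p with ha'
  have hK' : ∀ j < Q t, canAdj t σ (i, o) (K j) := fun j hj => (hK j hj).2
  have hadj : ∀ j < Q t, ∀ j' < Q t, j ≠ j' → (j < a' ↔ j' < a') → canAdj t σ (K j) (K j') :=
    fun j hj j' hj' hne h => (hKK j hj j' hj' hne).mpr h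
  have hnadj : ∀ j < Q t, ∀ j' < Q t, j < a' → ¬ j' < a' → ¬ canAdj t σ (K j) (K j') :=
    fun j hj j' hj' h1 h2 h => h2 (((hKK j hj j' hj' (by omega)).mp h).mp h1)
  have ho : o = 0 := by
    by_contra ho
    have h0 := hK' 0 (by omega)
    have h1 := hK' 1 (by omega)
    have h2 := hK' 2 (by omega)
    have h3 := hK' a' (by omega)
    have h01 := hadj 0 (by omega) 1 (by omega) (by omega) (by omega)
    have h02 := hadj 0 (by omega) 2 (by omega) (by omega) (by omega)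
    have h12 := hadj 1 (by omega) 2 (by omega) (by omega) (by omega)
    have h03 := hnadj 0 (by omega) a' (by omega) (by omega) (by omega)
    have h13 := hnadj 1 (by omega) a' (by omega) (by omega) (by omega)
    generalize K 0 = x0 at *
    generalize K 1 = x1 at *
    generalize K 2 = x2 at *
    generalize K a' = x3 at *
    obtain ⟨a0, b0⟩ := x0
    obtain ⟨a1, b1⟩ := x1
    obtain ⟨a2, b2⟩ := x2
    obtain ⟨a3, b3⟩ := x3
    clear hK hKK hK' hadj hnadj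
    by_cases hq : o ≤ Q t
    · have e0 : a0 = i := by unfold canAdj at h0; dsimp only at h0; omega
      have e1 : a1 = i := by unfold canAdj at h1; dsimp only at h1; omega
      have e3 : a3 = i := by unfold canAdj at h3; dsimp only at h3; omega
      subst e0 e1 e3
      rw [canAdj_same] at h0 h1 h3 h01 h03 h13
      have e : b0 = b3 := by
        clear h1 h01 h13
        omega
      subst e
      omega
    · have h4 := sz_bounds σ (ph_le ht a0)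
      have h5 := sz_bounds σ (ph_le ht a1)
      unfold canAdj at h0 h1 h2 h01 h02 h12
      dsimp only at h0 h1 h2 h01 h02 h12
      omega
  subst ho
  have hin : ∀ j < Q t, (K j).1 = i ∧ 0 < (K j).2 ∧ (K j).2 ≤ Q t := by
    intro j hj
    obtain ⟨j₁, j₂, h1, h2, h3, h4, h5, h6, h7⟩ : ∃ j₁ j₂, j₁ < Q t ∧ j₂ < Q t ∧ j ≠ j₁ ∧ j ≠ j₂ ∧
        j₁ ≠ j₂ ∧ (j < a' ↔ j₁ < a') ∧ (j < a' ↔ j₂ < a') := by
      by_cases hja : j < a'
      · refine ⟨if j = 0 then 2 else 0, if j = 1 then 2 else 1, ?_⟩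
        split_ifs <;> omega
      · refine ⟨if j = a' then a' + 2 else a', if j = a' + 1 then a' + 2 else a' + 1, ?_⟩
        split_ifs <;> omega
    exact clique_in_nbhd ht (hK' j hj) (hK' j₁ h1) (hK' j₂ h2) (hadj j hj j₁ h1 h3 h6)
      (hadj j hj j₂ h2 h4 h7) (hadj j₁ h1 j₂ h2 h5 (h6.symm.trans h7))
  have hgrp : ∀ j < Q t, ∀ j' < Q t, j ≠ j' → (canAdj t σ (K j) (K j') ↔
      ((K j).2 ≠ (K j').2 ∧ ((K j).2 ≤ sz σ (ph t i) ↔ (K j').2 ≤ sz σ (ph t i)))) := by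
    intro j hj j' hj' _
    have h1 := hin j hj
    have h2 := hin j' hj'
    unfold canAdj
    rw [h1.1, h2.1]
    omega
  have hne : (K 0).2 ≠ (K a').2 := by
    intro h
    have h1 := (hgrp 1 (by omega) 0 (by omega) (by omega)).mp
      (hadj 1 (by omega) 0 (by omega) (by omega) (by omega))
    rw [h] at h1
    exact hnadj 1 (by omega) a' (by omega) (by omega) (by omega)
      ((hgrp 1 (by omega) a' (by omega) (by omega)).mpr h1)
  have hdiff : ¬ ((K 0).2 ≤ sz σ (ph t i) ↔ (K a').2 ≤ sz σ (ph t i)) := fun h =>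
    hnadj 0 (by omega) a' (by omega) (by omega) (by omega)
      ((hgrp 0 (by omega) a' (by omega) (by omega)).mpr ⟨hne, h⟩)
  have hinj1 : ∀ j, 0 ≤ j → j < 0 + a' → ∀ j', 0 ≤ j' → j' < 0 + a' → (K j).2 = (K j').2 →
      j = j' := by
    intro j _ hj j' _ hj' h
    by_contra hne
    exact ((hgrp j (by omega) j' (by omega) hne).mp
      (hadj j (by omega) j' (by omega) hne (by omega))).1 h
  have hinj2 : ∀ j, a' ≤ j → j < a' + (Q t - a') → ∀ j', a' ≤ j' → j' < a' + (Q t - a') →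
      (K j).2 = (K j').2 → j = j' := by
    intro j _ hj j' _ hj' h
    by_contra hne
    exact ((hgrp j (by omega) j' (by omega) hne).mp
      (hadj j (by omega) j' (by omega) hne (by omega))).1 h
  have hs1 : ∀ j < a', ((K j).2 ≤ sz σ (ph t i) ↔ (K 0).2 ≤ sz σ (ph t i)) := by
    intro j hj
    by_cases h0 : j = 0
    · rw [h0]
    · exact ((hgrp j (by omega) 0 (by omega) h0).mp
        (hadj j (by omega) 0 (by omega) h0 (by omega))).2
  have hs2 : ∀ j, a' ≤ j → j < Q t → ((K j).2 ≤ sz σ (ph t i) ↔ (K a').2 ≤ sz σ (ph t i)) := by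
    intro j hj hj'
    by_cases h0 : j = a'
    · rw [h0]
    · exact ((hgrp j (by omega) a' (by omega) h0).mp
        (hadj j (by omega) a' (by omega) h0 (by omega))).2
  have heq : a' = sz σ (ph t i) := by
    by_cases hc : (K a').2 ≤ sz σ (ph t i)
    · have := card_le_of_inj (lo := 0) (hi := sz σ (ph t i)) a' (fun j => (K j).2) hinj2
        fun j h1 h2 => ⟨(hin j (by omega)).2.1, (hs2 j h1 (by omega)).mpr hc⟩
      omega
    · have hc0 : (K 0).2 ≤ sz σ (ph t i) := by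
        by_contra h
        exact hdiff ⟨fun h' => absurd h' h, fun h' => absurd h' hc⟩
      have h1 := card_le_of_inj (lo := 0) (hi := sz σ (ph t i)) 0 (fun j => (K j).2) hinj1
        fun j _ h2 => ⟨(hin j (by omega)).2.1, (hs1 j (by omega)).mpr hc0⟩
      have h2 := card_le_of_inj (lo := sz σ (ph t i)) (hi := Q t) a' (fun j => (K j).2) hinj2
        fun j h1 h2 => ⟨by
          have := (hs2 j h1 (by omega)).not.mpr hc
          omega, (hin j (by omega)).2.2⟩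
      omega
  exact ⟨rfl, sz_inj heq⟩

theorem can_succ {t : ℕ} (ht : 3 ≤ t) (σ : Bool) {s : Set (ℕ × ℕ)} {i : ℕ}
    (hs : ∀ o < Q t + 3, (i, o) ∈ s) (hs' : ∀ o < Q t + 3, (i + 1, o) ∈ s) :
    Succ t (can t σ) s σ (i, 0) (i + 1, 0) := by
  refine ⟨ph t i, can_role ht σ hs, ph_succ i ▸ can_role ht σ hs', (i, Q t + 1), hs _ (by omega),
    (i, Q t + 2), hs _ (by omega), ?_⟩
  dsimp only [can, canAdj]
  omega

theorem can_succ_inv {t : ℕ} (ht : 3 ≤ t) {σ σ' : Bool} {s : Set (ℕ × ℕ)} {u v : ℕ × ℕ}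
    (h : Succ t (can t σ) s σ' u v) : u.2 = 0 ∧ v.1 = u.1 + 1 := by
  obtain ⟨p, h1, h2, ⟨a1, a2⟩, -, ⟨b1, b2⟩, -, h3, h4, h5, h6, h7⟩ := h
  obtain ⟨i, o⟩ := u
  obtain ⟨i', o'⟩ := v
  obtain ⟨e1, -, e2⟩ := can_role_inv ht h1
  obtain ⟨e3, -, e4⟩ := can_role_inv ht h2
  simp only at e1 e2 e3 e4
  subst e1 e3
  refine ⟨rfl, ?_⟩
  have hcase : i' = i ∨ i' = i + 1 ∨ i = i' + 1 := by
    dsimp only [can, canAdj] at h4 h6
    omega
  have hp := ph_le ht i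
  have hp' := ph_le ht i'
  have hm : ∀ x ≤ t, x % t = if x = t then 0 else x := by
    intro x hx
    split_ifs with h
    · rw [h, Nat.mod_self]
    · exact Nat.mod_eq_of_lt (by omega)
  rcases hcase with rfl | rfl | rfl
  · rw [← e2, hm p (by omega)] at e4
    split_ifs at e4 <;> omega
  · rfl
  · rw [ph_succ, hm _ hp'] at e2
    rw [hm p h1.1] at e4
    split_ifs at e2 e4 <;> omega

theorem can_gad {t : ℕ} (ht : 3 ≤ t) (σ : Bool) {s : Set (ℕ × ℕ)} {i o : ℕ}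
    (hs : ∀ o < Q t + 3, (i, o) ∈ s) (ho : o ≠ 0) (ho' : o < Q t + 3) :
    Gad t (can t σ) s σ (i, o) := by
  have hb := sz_bounds σ (ph_le ht i)
  obtain ⟨o', h1, h2⟩ : ∃ o', o' < Q t + 3 ∧ canAdj t σ (i, 0) (i, o) ∧ canAdj t σ (i, 0) (i, o') ∧
      canAdj t σ (i, o) (i, o') := by
    dsimp only [canAdj]
    by_cases h1 : o ≤ sz σ (ph t i)
    · refine ⟨if o = 1 then 2 else 1, ?_⟩
      split_ifs <;> omega
    · by_cases h2 : o ≤ Q t
      · refine ⟨if o = Q t then Q t - 1 else Q t, ?_⟩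
        split_ifs <;> omega
      · refine ⟨if o = Q t + 1 then Q t + 2 else Q t + 1, ?_⟩
        split_ifs <;> omega
  exact ⟨hs o ho', (i, 0), _, (i, o'), hs _ h1, can_role ht σ hs, h2⟩

theorem can_private {t : ℕ} (ht : 3 ≤ t) (σ : Bool) (i o : ℕ) (ho' : o < Q t + 3) :
    ∃ o', o' ≠ 0 ∧ o' < Q t + 3 ∧ canAdj t σ (i, o) (i, o') ∧
      ∀ v, canAdj t σ v (i, o') → v = (i, o) ∨ canAdj t σ (i, o) v := by
  have hb := sz_bounds σ (ph_le ht i)
  have key : ∀ o', (∀ a b, canAdj t σ (i, o') (a, b) → (a = i ∧ b = o) ∨ canAdj t σ (i, o) (a, b)) →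
      ∀ v, canAdj t σ v (i, o') → v = (i, o) ∨ canAdj t σ (i, o) v := by
    rintro o' h ⟨a, b⟩ hv
    rcases h a b (canAdj_symm hv) with ⟨rfl, rfl⟩ | h
    · exact Or.inl rfl
    · exact Or.inr h
  obtain ⟨o', h1⟩ : ∃ o', (o = 1 ∧ o' = 2) ∨ (o ≠ 1 ∧ o ≤ sz σ (ph t i) ∧ o' = 1) ∨
      (o = Q t ∧ o' = Q t - 1) ∨ (sz σ (ph t i) < o ∧ o < Q t ∧ o' = Q t) ∨
      (o = Q t + 1 ∧ o' = Q t + 2) ∨ (o = Q t + 2 ∧ o' = Q t + 1) := by
    refine ⟨if o = 1 then 2 else if o ≤ sz σ (ph t i) then 1 else if o = Q t then Q t - 1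
      else if o < Q t then Q t else if o = Q t + 1 then Q t + 2 else Q t + 1, ?_⟩
    split_ifs <;> omega
  refine ⟨o', by omega, by omega, by rw [canAdj_same]; omega, key _ fun a b h => ?_⟩
  dsimp only [canAdj] at h ⊢
  omega

theorem can_rules (T : Tiling) (σ : Bool) : Rules T (can T.t σ) Set.univ := by
  have hsp : ∀ u v : ℕ × ℕ, u.2 = 0 → v.2 = 0 → ¬ (can T.t σ).Adj u v := by
    intro u v hu hv
    dsimp only [can, canAdj]
    omega
  have hgad : ∀ σ' u, Gad T.t (can T.t σ) Set.univ σ' u → σ' = σ ∧ u.2 ≠ 0 := by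
    rintro σ' u ⟨-, x, p, w, -, h1, h2, -⟩
    obtain ⟨e1, e2, -⟩ := can_role_inv T.ht h1
    exact ⟨e2, fun h => hsp _ _ e1 h h2⟩
  refine ⟨fun σ₁ p σ' p' x h1 h2 => ?_, fun σ₁ p p' x y h1 h2 => ?_, fun σ₁ σ' p u h1 h2 => ?_,
    fun σ₁ p u v h1 h2 => ?_, fun σ₁ u v h1 h2 => ?_, fun σ₁ x y y' z _ h1 h2 => ?_,
    fun x b p q h1 _ h3 _ => ?_⟩
  · obtain ⟨-, e1, e2⟩ := can_role_inv T.ht h1
    obtain ⟨-, e3, e4⟩ := can_role_inv T.ht h2
    exact ⟨e1.trans e3.symm, e2.trans e4.symm⟩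
  · exact hsp _ _ (can_role_inv T.ht h1).1 (can_role_inv T.ht h2).1
  · exact (hgad _ _ h1).2 (can_role_inv T.ht h2).1
  · have e1 := (hgad _ _ h1).1
    have e2 := (can_role_inv T.ht h2).2.1
    rw [e1] at e2
    simp at e2
  · have e1 := (hgad _ _ h1).1
    have e2 := (hgad _ _ h2).1
    rw [e1] at e2
    simp at e2
  · obtain ⟨e1, e2⟩ := can_succ_inv T.ht h1
    obtain ⟨e3, e4⟩ := can_succ_inv T.ht h2
    have : y = y' := Prod.ext (by omega) (by omega)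
    rw [this]
    exact id
  · have e1 := (can_role_inv T.ht h1).2.1
    have e2 := (can_role_inv T.ht h3).2.1
    rw [← e1] at e2
    simp at e2

end Pool.Agent.Lib.MP_451b27_lc
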