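import Mathlib
import Pool.Agent.Lib.MP_451b27_lc.Canon

/-! Distance from the origin, models of the canonical rays and the joint embedding. -/

namespace Pool.Agent.Lib.MP_451b27_lc

open Set

section Live

variable (t : ℕ) {V : Type} (G : SimpleGraph V)

/-- `x` is reached from an origin of side `σ` in `d` steps. -/
def Live (σ : Bool) : ℕ → V → Prop
  | 0, x => Role t G univ σ 0 x
  | d + 1, y => ∃ x, Live σ d x ∧ Succ t G univ σ x y

variable {t G}

theorem Role.twin {σ p x x'} (hN : ∀ z, G.Adj x z → G.Adj x' z) (h : Role t G univ σ p x) :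
    Role t G univ σ p x' := by
  obtain ⟨h1, -, K, h3, h4⟩ := h
  exact ⟨h1, trivial, K, fun i hi => ⟨trivial, hN _ (h3 i hi).2⟩, h4⟩

theorem Live.twin {σ d x x'} (hN : ∀ z, G.Adj x z → G.Adj x' z) (h : Live t G σ d x) :
    Live t G σ d x' := by
  cases d with
  | zero => exact Role.twin hN h
  | succ d =>
    obtain ⟨y, hy, p, h1, h2, u, -, v, -, h3, h4, h5, h6, h7⟩ := h
    exact ⟨y, hy, p, h1, h2.twin hN, u, trivial, v, trivial, h3, h4, h5, hN _ h6, hN _ h7⟩

variable {T : Tiling}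

theorem Live.role (hR : Rules T G univ) {σ d x} (h : Live T.t G σ d x) :
    Role T.t G univ σ (ph T.t d) x := by
  induction d generalizing x with
  | zero => exact h
  | succ d ih =>
    obtain ⟨y, hy, p, h1, h2, -⟩ := h
    rw [ph_succ, (hR.excl _ _ _ _ _ (ih hy) h1).2]
    exact h2

theorem Live.pred (hR : Rules T G univ) {σ d x y} (hs : Succ T.t G univ σ x y)
    (h : Live T.t G σ d y) : ∃ e, d = e + 1 ∧ Live T.t G σ e x := by
  cases d with
  | zero =>
    obtain ⟨p, -, h2, -⟩ := hs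
    have := (hR.excl _ _ _ _ _ h h2).2
    omega
  | succ d =>
    obtain ⟨x', hx', hs'⟩ := h
    exact ⟨d, rfl, hx'.twin fun z => hR.twin σ y x' x z trivial hs' hs⟩

theorem Live.unique (hR : Rules T G univ) {σ d e x} (h : Live T.t G σ d x)
    (h' : Live T.t G σ e x) : d = e := by
  induction d generalizing x e with
  | zero =>
    cases e with
    | zero => rfl
    | succ e =>
      obtain ⟨y, -, hs⟩ := h'
      obtain ⟨_, h1, -⟩ := Live.pred hR hs h
      omega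
  | succ d ih =>
    obtain ⟨y, hy, hs⟩ := h
    obtain ⟨e', rfl, h1⟩ := Live.pred hR hs h'
    rw [ih hy h1]

theorem Live.path {σ d} {x : ℕ → V} {n : ℕ} (h0 : Live t G σ d (x 0))
    (h : ∀ a, a + 1 < n → Succ t G univ σ (x a) (x (a + 1))) :
    ∀ a < n, Live t G σ (d + a) (x a) := by
  intro a ha
  induction a with
  | zero => exact h0
  | succ a ih => exact ⟨x a, ih (by omega), h a ha⟩

theorem Live.path_back (hR : Rules T G univ) {σ} {x : ℕ → V} {n : ℕ}
    (h : ∀ a, a + 1 < n → Succ T.t G univ σ (x a) (x (a + 1))) :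
    ∀ a < n, ∀ d, Live T.t G σ d (x a) → ∃ e, Live T.t G σ e (x 0) := by
  intro a ha
  induction a with
  | zero => exact fun d hd => ⟨d, hd⟩
  | succ a ih =>
    intro d hd
    obtain ⟨e, -, he⟩ := Live.pred hR (h a ha) hd
    exact ih (by omega) e he

end Live

/-- The first `N` blocks of a canonical ray. -/
def Box (t N : ℕ) : Set (ℕ × ℕ) := {u | u.1 < N ∧ u.2 < Q t + 3}

/-- `ψ` copies the first `N` blocks of the canonical ray of side `σ` into `G`. -/
def Model (t : ℕ) {V : Type} (G : SimpleGraph V) (σ : Bool) (N : ℕ) (ψ : ℕ × ℕ → V) : Prop :=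
  Iso (can t σ) (Box t N) G univ ψ

section Model

variable {t : ℕ} {V : Type} {G : SimpleGraph V} {σ : Bool} {N : ℕ} {ψ : ℕ × ℕ → V}

theorem Model.role (ht : 3 ≤ t) (h : Model t G σ N ψ) {i : ℕ} (hi : i < N) :
    Role t G univ σ (ph t i) (ψ (i, 0)) :=
  (can_role (s := Box t N) ht σ fun _ ho => ⟨hi, ho⟩).map h

theorem Model.succ (ht : 3 ≤ t) (h : Model t G σ N ψ) {i : ℕ} (hi : i + 1 < N) :
    Succ t G univ σ (ψ (i, 0)) (ψ (i + 1, 0)) :=
  (can_succ (s := Box t N) ht σ (fun _ ho => ⟨by show i < N; omega, ho⟩)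
    fun _ ho => ⟨hi, ho⟩).map h

theorem Model.gad (ht : 3 ≤ t) (h : Model t G σ N ψ) {u : ℕ × ℕ} (hu : u ∈ Box t N)
    (ho : u.2 ≠ 0) : Gad t G univ σ (ψ u) :=
  (can_gad (s := Box t N) ht σ (fun _ ho => ⟨hu.1, ho⟩) ho hu.2).map h

theorem Model.live (ht : 3 ≤ t) (h : Model t G σ N ψ) {i : ℕ} (hi : i < N) :
    Live t G σ i (ψ (i, 0)) := by
  induction i with
  | zero => exact h.role ht hi
  | succ i ih => exact ⟨_, ih (by omega), h.succ ht hi⟩

theorem Model.mono (h : Model t G σ N ψ) {N' : ℕ} (hN : N' ≤ N) : Model t G σ N' ψ :=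
  ⟨fun _ _ => trivial, fun u hu v hv =>
    h.2 u ⟨hu.1.trans_le hN, hu.2⟩ v ⟨hv.1.trans_le hN, hv.2⟩⟩

end Model

/-- The bottom row agrees with the prescribed one before position `m` and differs at `m`. -/
def xbit (T : Tiling) (k m d : ℕ) : Prop := bit T.t T.c₁ T.c₂ T.c₃ k d ↔ d ≠ m

/-- The configuration in which the bottom row first goes wrong at position `m`. -/
def Occ (T : Tiling) (k m : ℕ) {V : Type} (G : SimpleGraph V) : Prop :=
  ∃ ψA ψB : ℕ × ℕ → V, Model T.t G true (m + 1) ψA ∧ Model T.t G false 1 ψB ∧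
    ∀ u ∈ Box T.t (m + 1), ∀ v ∈ Box T.t 1,
      (G.Adj (ψA u) (ψB v) ↔ u.2 = 0 ∧ v.2 = 0 ∧ xbit T k m u.1)

/-- The class of graphs attached to the input `k`. -/
def Good (T : Tiling) (k : ℕ) {V : Type} (G : SimpleGraph V) : Prop :=
  Rules T G univ ∧ ∀ m < (k + 5) * T.t + 1, ¬ Occ T k m G

theorem Good.comap {T : Tiling} {k : ℕ} {V V' : Type} {G : SimpleGraph V'} (h : Good T k G)
    (φ : V → V') : Good T k (G.comap φ) := by
  refine ⟨h.1.comap (iso_comap G φ), fun m hm => ?_⟩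
  rintro ⟨ψA, ψB, h1, h2, h3⟩
  exact h.2 m hm ⟨φ ∘ ψA, φ ∘ ψB, ⟨fun _ _ => trivial, h1.2⟩, ⟨fun _ _ => trivial, h2.2⟩, h3⟩

theorem good_can (T : Tiling) (k : ℕ) (σ : Bool) : Good T k (can T.t σ) := by
  refine ⟨can_rules T σ, fun m _ => ?_⟩
  rintro ⟨ψA, ψB, h1, h2, -⟩
  have e1 := (can_role_inv T.ht (h1.role T.ht (i := 0) (by omega))).2.1
  have e2 := (can_role_inv T.ht (h2.role T.ht (i := 0) (by omega))).2.1
  rw [← e1] at e2
  simp at e2

section Joint

variable (T : Tiling) (τ : ℕ → ℕ → Prop) {ι V : Type} (Gs : ι → SimpleGraph V)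

/-- A cross edge from a reachable vertex of side `true` to one of side `false`. -/
def Cross (a b : ι × V) : Prop :=
  ∃ d e, Live T.t (Gs a.1) true d a.2 ∧ Live T.t (Gs b.1) false e b.2 ∧ τ d e

/-- The joint embedding of the graphs `Gs i`. -/
def joint : SimpleGraph (ι × V) where
  Adj a b := (a.1 = b.1 ∧ (Gs a.1).Adj a.2 b.2) ∨
    (a.1 ≠ b.1 ∧ (Cross T τ Gs a b ∨ Cross T τ Gs b a))
  symm := ⟨by
    rintro ⟨i, u⟩ ⟨j, v⟩ (⟨h1, h2⟩ | ⟨h1, h2⟩)
    · dsimp only at h1 h2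
      subst h1
      exact Or.inl ⟨rfl, h2.symm⟩
    · exact Or.inr ⟨h1.symm, h2.symm⟩⟩
  loopless := ⟨by
    rintro ⟨i, u⟩ (⟨-, h2⟩ | ⟨h1, -⟩)
    · exact h2.ne rfl
    · exact h1 rfl⟩

variable {T τ Gs}

theorem joint_same {a b : ι × V} (h : a.1 = b.1) :
    (joint T τ Gs).Adj a b ↔ (Gs a.1).Adj a.2 b.2 :=
  ⟨fun h' => h'.elim (fun h => h.2) fun h'' => absurd h h''.1, fun h' => Or.inl ⟨h, h'⟩⟩

theorem joint_diff {a b : ι × V} (h : a.1 ≠ b.1) :
    (joint T τ Gs).Adj a b ↔ Cross T τ Gs a b ∨ Cross T τ Gs b a :=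
  ⟨fun h' => h'.elim (fun h'' => absurd h''.1 h) fun h => h.2, fun h' => Or.inr ⟨h, h'⟩⟩

theorem iso_snd (i : ι) : Iso (joint T τ Gs) {a | a.1 = i} (Gs i) univ Prod.snd := by
  refine ⟨fun _ _ => trivial, fun a ha b hb => ?_⟩
  have ha' : a.1 = i := ha
  rw [joint_same (ha'.trans hb.symm), ha']

theorem iso_mk (i : ι) : Iso (Gs i) univ (joint T τ Gs) univ (Prod.mk i) :=
  ⟨fun _ _ => trivial, fun u _ v _ => (joint_same (a := (i, u)) (b := (i, v)) rfl).symm⟩

variable (hR : ∀ i, Rules T (Gs i) univ)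
include hR

theorem cross_role {a b : ι × V} (h : a.1 ≠ b.1) (hab : (joint T τ Gs).Adj a b) :
    ∃ σ p q, Role T.t (Gs a.1) univ σ p a.2 ∧ Role T.t (Gs b.1) univ (!σ) q b.2 := by
  rcases (joint_diff h).mp hab with ⟨d, e, h1, h2, -⟩ | ⟨d, e, h1, h2, -⟩
  · exact ⟨true, _, _, h1.role (hR _), h2.role (hR _)⟩
  · exact ⟨false, _, _, h2.role (hR _), h1.role (hR _)⟩

theorem tri {a b c : ι × V} (hab : (joint T τ Gs).Adj a b) (hbc : (joint T τ Gs).Adj b c)
    (hac : (joint T τ Gs).Adj a c) : a.1 = b.1 := by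
  by_contra hne
  obtain ⟨σ, p, q, h1, h2⟩ := cross_role hR hne hab
  obtain ⟨i, u⟩ := a
  obtain ⟨j, v⟩ := b
  obtain ⟨l, w⟩ := c
  dsimp only at *
  by_cases hli : l = i
  · subst hli
    obtain ⟨σ', p', q', h3, h4⟩ := cross_role hR (a := (j, v)) (b := (l, w)) (Ne.symm hne) hbc
    have e := ((hR j).excl _ _ _ _ _ h2 h3).1
    rw [← e, Bool.not_not] at h4
    exact (hR l).indep _ _ _ _ _ h1 h4 ((joint_same (a := (l, u)) (b := (l, w)) rfl).mp hac)
  · obtain ⟨σ', p', q', h3, h4⟩ := cross_role hR (a := (i, u)) (b := (l, w)) (Ne.symm hli) hac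
    have e := ((hR i).excl _ _ _ _ _ h1 h3).1
    rw [← e] at h4
    by_cases hlj : l = j
    · subst hlj
      exact (hR l).indep _ _ _ _ _ h2 h4 ((joint_same (a := (l, v)) (b := (l, w)) rfl).mp hbc)
    · obtain ⟨σ'', p'', q'', h5, h6⟩ :=
        cross_role hR (a := (j, v)) (b := (l, w)) (Ne.symm hlj) hbc
      have e' := ((hR j).excl _ _ _ _ _ h2 h5).1
      rw [← e', Bool.not_not] at h6
      have e'' := ((hR l).excl _ _ _ _ _ h4 h6).1
      simp at e''

theorem role_comp {σ p} {a : ι × V} (h : Role T.t (joint T τ Gs) univ σ p a) :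
    Role T.t (joint T τ Gs) {b | b.1 = a.1} σ p a := by
  obtain ⟨h1, -, K, h3, h4⟩ := h
  have hb := sz_bounds σ h1
  refine ⟨h1, rfl, K, fun i hi => ⟨?_, (h3 i hi).2⟩, h4⟩
  obtain ⟨j, hj, hij, hs⟩ : ∃ j, j < Q T.t ∧ i ≠ j ∧ (i < sz σ p ↔ j < sz σ p) := by
    refine ⟨if i < sz σ p then (if i = 0 then 1 else 0) else
      (if i = sz σ p then sz σ p + 1 else sz σ p), ?_⟩
    split_ifs <;> omega
  exact (tri hR (h3 i hi).2 ((h4 i hi j hj hij).mpr hs) (h3 j hj).2).symm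

theorem role_down {σ p} {a : ι × V} (h : Role T.t (joint T τ Gs) univ σ p a) :
    Role T.t (Gs a.1) univ σ p a.2 :=
  (role_comp hR h).map (iso_snd a.1)

theorem succ_down {σ} {a b : ι × V} (h : Succ T.t (joint T τ Gs) univ σ a b) :
    b.1 = a.1 ∧ Succ T.t (Gs a.1) univ σ a.2 b.2 := by
  obtain ⟨p, h1, h2, u, -, v, -, h3, h4, h5, h6, h7⟩ := h
  have e1 := tri hR h4 h3 h5
  have e2 := tri hR h6 h3 h7
  have e3 := tri hR h5 h3.symm h4
  have e : b.1 = a.1 := e2.trans e1.symm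
  refine ⟨e, p, role_down hR h1, e ▸ role_down hR h2, ?_⟩
  exact Link.map (iso_snd a.1) rfl e ⟨u, e1.symm, v, e3.symm, h3, h4, h5, h6, h7⟩

theorem gad_down {σ} {a : ι × V} (h : Gad T.t (joint T τ Gs) univ σ a) :
    Gad T.t (Gs a.1) univ σ a.2 := by
  obtain ⟨-, x, p, w, -, h1, h2, h3, h4⟩ := h
  have e1 := tri hR h2 h4 h3
  have e2 := tri hR h4 h3.symm h2.symm
  refine Gad.map (iso_snd a.1) ⟨rfl, x, p, w, e2.symm, ?_, h2, h3, h4⟩
  rw [← e1]
  exact role_comp hR h1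

theorem live_down {σ d} {a : ι × V} (h : Live T.t (joint T τ Gs) σ d a) :
    Live T.t (Gs a.1) σ d a.2 := by
  induction d generalizing a with
  | zero => exact role_down hR h
  | succ d ih =>
    obtain ⟨x, hx, hs⟩ := h
    obtain ⟨e, hs'⟩ := succ_down hR hs
    rw [e]
    exact ⟨x.2, ih hx, hs'⟩

theorem cross_iff {a b : ι × V} {p} (h : a.1 ≠ b.1) (ha : Role T.t (Gs a.1) univ true p a.2) :
    (joint T τ Gs).Adj a b ↔ Cross T τ Gs a b := by
  rw [joint_diff h]
  refine ⟨fun h' => h'.elim id ?_, Or.inl⟩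
  rintro ⟨d, e, -, h2, -⟩
  have := ((hR _).excl _ _ _ _ _ ha (h2.role (hR _))).1
  simp at this

theorem cross_live {a b : ι × V} {d e} (h : a.1 ≠ b.1) (ha : Live T.t (Gs a.1) true d a.2)
    (hb : Live T.t (Gs b.1) false e b.2) : (joint T τ Gs).Adj a b ↔ τ d e := by
  rw [cross_iff hR h (ha.role (hR _))]
  refine ⟨?_, fun h => ⟨d, e, ha, hb, h⟩⟩
  rintro ⟨d', e', h1, h2, h3⟩
  rwa [ha.unique (hR _) h1, hb.unique (hR _) h2]

theorem joint_rules
    (hτ : ∀ d e, T.Ok (ph T.t d) (ph T.t e) fun a c => τ (d + a) (e + c)) :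
    Rules T (joint T τ Gs) univ := by
  refine ⟨fun σ₁ p σ' p' x h1 h2 => ?_, fun σ₁ p p' x y h1 h2 h3 => ?_,
    fun σ₁ σ' p u h1 h2 => ?_, fun σ₁ p u v h1 h2 h3 => ?_, fun σ₁ u v h1 h2 h3 => ?_,
    fun σ₁ x y y' z _ h1 h2 h3 => ?_, fun x b p q h1 h2 h3 h4 => ?_⟩
  · exact (hR _).excl _ _ _ _ _ (role_down hR h1) (role_down hR h2)
  · by_cases e : x.1 = y.1
    · exact (hR _).indep _ _ _ _ _ (role_down hR h1) (e ▸ role_down hR h2) ((joint_same e).mp h3)
    · obtain ⟨σ, _, _, h4, h5⟩ := cross_role hR e h3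
      have e1 := ((hR _).excl _ _ _ _ _ (role_down hR h1) h4).1
      have e2 := ((hR _).excl _ _ _ _ _ (role_down hR h2) h5).1
      rw [← e1] at e2
      simp at e2
  · exact (hR _).gadRole _ _ _ _ (gad_down hR h1) (role_down hR h2)
  · by_cases e : u.1 = v.1
    · exact (hR _).gad₁ _ _ _ _ (gad_down hR h1) (e ▸ role_down hR h2) ((joint_same e).mp h3)
    · obtain ⟨σ, _, _, h4, -⟩ := cross_role hR e h3
      exact (hR _).gadRole _ _ _ _ (gad_down hR h1) h4
  · by_cases e : u.1 = v.1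
    · exact (hR _).gad₂ _ _ _ (gad_down hR h1) (e ▸ gad_down hR h2) ((joint_same e).mp h3)
    · obtain ⟨σ, _, _, h4, -⟩ := cross_role hR e h3
      exact (hR _).gadRole _ _ _ _ (gad_down hR h1) h4
  · obtain ⟨e1, h4⟩ := succ_down hR h1
    obtain ⟨e2, h5⟩ := succ_down hR h2
    obtain ⟨i, u⟩ := y
    obtain ⟨i', u'⟩ := y'
    dsimp only at e1 e2 h4 h5
    obtain rfl : i = i' := e1.symm.trans e2
    have hN : ∀ z, (Gs i).Adj u z → (Gs i).Adj u' z := fun z =>
      (hR i).twin _ _ _ _ z trivial h4 h5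
    by_cases e : i = z.1
    · exact (joint_same (a := (i, u')) e).mpr (hN _ ((joint_same (a := (i, u)) e).mp h3))
    · rw [joint_diff (a := (i, u')) e]
      rcases (joint_diff (a := (i, u)) e).mp h3 with ⟨d, e', h6, h7⟩ | ⟨d, e', h6, h7, h8⟩
      · exact Or.inl ⟨d, e', h6.twin hN, h7⟩
      · exact Or.inr ⟨d, e', h6, h7.twin hN, h8⟩
  · have hx : ∀ a < 3 * T.t, (x a).1 = (x 0).1 := by
      intro a ha
      induction a with
      | zero => rfl
      | succ a ih => exact (succ_down hR (h2 a ha)).1.trans (ih (by omega))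
    have hxs : ∀ a, a + 1 < 3 * T.t →
        Succ T.t (Gs (x 0).1) univ true (x a).2 (x (a + 1)).2 := fun a ha =>
      hx a (by omega) ▸ (succ_down hR (h2 a ha)).2
    have hb : ∀ c < 2, (b c).1 = (b 0).1 := by
      intro c hc
      rcases c with _ | _ | c
      · rfl
      · exact (succ_down hR h4).1
      · omega
    have hbs : ∀ c, c + 1 < 2 → Succ T.t (Gs (b 0).1) univ false (b c).2 (b (c + 1)).2 := by
      intro c hc
      obtain rfl : c = 0 := by omega
      exact (succ_down hR h4).2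
    have h1' := role_down hR h1
    have h3' := role_down hR h3
    by_cases e : (x 0).1 = (b 0).1
    · have := (hR (x 0).1).window (fun a => (x a).2) (fun c => (b c).2) p q h1' hxs
        (e ▸ h3') (e ▸ hbs 0 (by omega))
      refine T.loc _ _ _ _ (fun a ha c hc => ?_) this
      rw [joint_same ((hx a ha).trans (e.trans (hb c hc).symm)), hx a ha]
    · have hne : ∀ a < 3 * T.t, ∀ c < 2, (x a).1 ≠ (b c).1 := fun a ha c hc h =>
        e ((hx a ha).symm.trans (h.trans (hb c hc)))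
      by_cases hl : ∃ d e, Live T.t (Gs (x 0).1) true d (x 0).2 ∧
          Live T.t (Gs (b 0).1) false e (b 0).2
      · obtain ⟨d, e', h5, h6⟩ := hl
        have hp := ((hR _).excl _ _ _ _ _ h1' (h5.role (hR _))).2
        have hq := ((hR _).excl _ _ _ _ _ h3' (h6.role (hR _))).2
        rw [hp, hq]
        refine T.loc _ _ _ _ (fun a ha c hc => ?_) (hτ d e')
        refine (cross_live hR (hne a ha c hc) ?_ ?_).symm
        · rw [hx a ha]
          exact Live.path (x := fun a => (x a).2) h5 hxs a ha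
        · rw [hb c hc]
          exact Live.path (x := fun c => (b c).2) h6 hbs c hc
      · refine T.loc _ _ _ _ (fun a ha c hc => ⟨False.elim, fun h => hl ?_⟩) (T.zero p q)
        have hra : ∃ p, Role T.t (Gs (x a).1) univ true p (x a).2 := by
          rcases a with _ | a
          · exact ⟨_, h1'⟩
          · obtain ⟨p, -, h, -⟩ := h2 a ha
            exact ⟨_, role_down hR h⟩
        obtain ⟨p', hp'⟩ := hra
        obtain ⟨d, e', h5, h6, -⟩ := (cross_iff hR (hne a ha c hc) hp').mp h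
        rw [hx a ha] at h5
        rw [hb c hc] at h6
        obtain ⟨d', hd'⟩ := Live.path_back (hR _) (x := fun a => (x a).2) hxs a ha d h5
        obtain ⟨e'', he'⟩ := Live.path_back (hR _) (x := fun c => (b c).2) hbs c hc e' h6
        exact ⟨d', e'', hd', he'⟩

theorem model_comp {σ N} {ψ : ℕ × ℕ → ι × V} (h : Model T.t (joint T τ Gs) σ N ψ) :
    ∀ u ∈ Box T.t N, (ψ u).1 = (ψ (0, 0)).1 := by
  have h1 : ∀ i < N, (ψ (i, 0)).1 = (ψ (0, 0)).1 := by
    intro i hi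
    induction i with
    | zero => rfl
    | succ i ih => exact (succ_down hR (h.succ T.ht hi)).1.trans (ih (by omega))
  rintro ⟨i, o⟩ hu
  rw [← h1 i hu.1]
  by_cases ho : o = 0
  · rw [ho]
  · obtain ⟨-, x, p, w, hw, h2, h3, h4, h5⟩ :=
      can_gad (s := Box T.t (i + 1) ∩ {v | v.1 = i}) (i := i) T.ht σ
        (fun _ ho => ⟨⟨Nat.lt_succ_self i, ho⟩, rfl⟩) ho hu.2
    have hx : x = (i, 0) := Prod.ext h2.mem.2 (can_role_inv T.ht h2).1
    subst hx
    have hw' : w ∈ Box T.t N := ⟨by rw [hw.2]; exact hu.1, hw.1.2⟩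
    have h0 : (i, 0) ∈ Box T.t N := ⟨hu.1, by show 0 < _; omega⟩
    exact (tri hR ((h.2 _ h0 _ hu).mp h3) ((h.2 _ hu _ hw').mp h5) ((h.2 _ h0 _ hw').mp h4)).symm

theorem model_down {σ N} {ψ : ℕ × ℕ → ι × V} (h : Model T.t (joint T τ Gs) σ N ψ) :
    Model T.t (Gs (ψ (0, 0)).1) σ N (Prod.snd ∘ ψ) := by
  refine ⟨fun _ _ => trivial, fun u hu v hv => ?_⟩
  rw [h.2 u hu v hv, joint_same ((model_comp hR h u hu).trans (model_comp hR h v hv).symm),
    model_comp hR h u hu]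
  rfl

omit hR in
theorem joint_good {k : ℕ} (hG : ∀ i, Good T k (Gs i))
    (hrow : ∀ d, τ d 0 ↔ bit T.t T.c₁ T.c₂ T.c₃ k d)
    (hτ : ∀ d e, T.Ok (ph T.t d) (ph T.t e) fun a c => τ (d + a) (e + c)) :
    Good T k (joint T τ Gs) := by
  have hR : ∀ i, Rules T (Gs i) univ := fun i => (hG i).1
  refine ⟨joint_rules hR hτ, fun m hm => ?_⟩
  rintro ⟨ψA, ψB, h1, h2, h3⟩
  by_cases e : (ψA (0, 0)).1 = (ψB (0, 0)).1
  · refine (hG (ψA (0, 0)).1).2 m hm ⟨_, _, model_down hR h1, e ▸ model_down hR h2,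
      fun u hu v hv => ?_⟩
    rw [← h3 u hu v hv,
      joint_same ((model_comp hR h1 u hu).trans (e.trans (model_comp hR h2 v hv).symm)),
      model_comp hR h1 u hu]
    rfl
  · have hm0 : (m, 0) ∈ Box T.t (m + 1) := ⟨Nat.lt_succ_self m, by show 0 < _; omega⟩
    have h00 : (0, 0) ∈ Box T.t 1 := ⟨Nat.lt_succ_self 0, by show 0 < _; omega⟩
    have h4 := h3 _ hm0 _ h00
    rw [cross_live hR (fun h => e ((model_comp hR h1 _ hm0).symm.trans h))
      (live_down hR (h1.live T.ht (Nat.lt_succ_self m)))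
      (live_down hR (h2.live T.ht (Nat.lt_succ_self 0))), hrow] at h4
    simp only [xbit, true_and, ne_eq, not_true_eq_false, iff_false] at h4
    exact iff_not_self h4

end Joint

end Pool.Agent.Lib.MP_451b27_lc
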