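import Mathlib
import Pool.Agent.Lib.MP_451b27_lc.Joint

/-! The input-dependent forbidden graphs and their computability. -/

namespace Pool.Agent.Lib.MP_451b27_lc

open Set

/-- Adjacency in the graph in which the bottom row first goes wrong at position `m`. -/
def xAdj (T : Tiling) (k m u v : ℕ) : Prop :=
  (Q T.t + 3 ≤ u ∧ Q T.t + 3 ≤ v ∧
    canAdj T.t true (u / (Q T.t + 3) - 1, u % (Q T.t + 3))
      (v / (Q T.t + 3) - 1, v % (Q T.t + 3))) ∨
  (u < Q T.t + 3 ∧ v < Q T.t + 3 ∧ canAdj T.t false (0, u) (0, v)) ∨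
  (Q T.t + 3 ≤ u ∧ u % (Q T.t + 3) = 0 ∧ v = 0 ∧ xbit T k m (u / (Q T.t + 3) - 1)) ∨
  (Q T.t + 3 ≤ v ∧ v % (Q T.t + 3) = 0 ∧ u = 0 ∧ xbit T k m (v / (Q T.t + 3) - 1))

theorem xAdj_symm {T k m u v} (h : xAdj T k m u v) : xAdj T k m v u := by
  rcases h with ⟨h1, h2, h3⟩ | ⟨h1, h2, h3⟩ | h | h
  · exact Or.inl ⟨h2, h1, canAdj_symm h3⟩
  · exact Or.inr (Or.inl ⟨h2, h1, canAdj_symm h3⟩)
  · exact Or.inr (Or.inr (Or.inr h))
  · exact Or.inr (Or.inr (Or.inl h))

theorem xAdj_irrefl {T k m u} : ¬ xAdj T k m u u := by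
  rintro (⟨-, -, h3⟩ | ⟨-, -, h3⟩ | h | h)
  · exact canAdj_irrefl h3
  · exact canAdj_irrefl h3
  · omega
  · omega

open Classical in
/-- The presentation of that graph. -/
noncomputable def codeX (T : Tiling) (k m : ℕ) : ℕ × List (ℕ × ℕ) :=
  ((m + 2) * (Q T.t + 3),
    ((List.range ((m + 2) * (Q T.t + 3))).flatMap fun u =>
      (List.range ((m + 2) * (Q T.t + 3))).map fun v => (u, v)).filter
        fun p => xAdj T k m p.1 p.2)

theorem decode_codeX {T k m} (u v : Fin (codeX T k m).1) :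
    (decode (codeX T k m)).Adj u v ↔ xAdj T k m u v := by
  have key : ∀ a b : Fin (codeX T k m).1, (a.val, b.val) ∈ (codeX T k m).2 ↔ xAdj T k m a b := by
    intro a b
    have ha : a.val < (m + 2) * (Q T.t + 3) := a.2
    have hb : b.val < (m + 2) * (Q T.t + 3) := b.2
    simp [codeX, ha, hb]
  refine (SimpleGraph.fromRel_adj _ u v).trans ?_
  rw [key u v, key v u]
  refine ⟨fun h => h.2.elim id xAdj_symm, fun h => ⟨?_, Or.inl h⟩⟩
  rintro rfl
  exact xAdj_irrefl h

section Prim

variable {α : Type} [Primcodable α]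

theorem primrecPred_iff {p q : α → Prop} (hp : PrimrecPred p) (hq : PrimrecPred q) :
    PrimrecPred fun a => (p a ↔ q a) :=
  ((hp.and hq).or (hp.not.and hq.not)).of_eq fun a => by tauto

theorem primrec_ph (t : ℕ) : Primrec (ph t) :=
  Primrec.ite (Primrec.eq.comp Primrec.id (Primrec.const 0)) (Primrec.const 0)
    (Primrec.succ.comp (Primrec.nat_mod.comp (Primrec.nat_sub.comp Primrec.id (Primrec.const 1))
      (Primrec.const t)))

theorem primrec_sz (σ : Bool) : Primrec (sz σ) :=
  Primrec.nat_add.comp (Primrec.nat_add.comp (Primrec.const 3)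
    (Primrec.nat_mul.comp (Primrec.const 2) Primrec.id)) (Primrec.const σ.toNat)

theorem primrecPred_canAdj (t : ℕ) (σ : Bool) {i o i' o' : α → ℕ} (hi : Primrec i)
    (ho : Primrec o) (hi' : Primrec i') (ho' : Primrec o') :
    PrimrecPred fun a => canAdj t σ (i a, o a) (i' a, o' a) := by
  have hA : Primrec fun a => sz σ (ph t (i a)) := (primrec_sz σ).comp ((primrec_ph t).comp hi)
  have hQ : Primrec fun _ : α => Q t := Primrec.const _
  have hW : Primrec fun _ : α => Q t + 3 := Primrec.const _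
  have h0 : Primrec fun _ : α => 0 := Primrec.const _
  exact ((Primrec.eq.comp hi hi').and ((Primrec.eq.comp ho ho').not.and
      ((Primrec.nat_lt.comp ho hW).and ((Primrec.nat_lt.comp ho' hW).and
      ((Primrec.eq.comp ho h0).or ((Primrec.eq.comp ho' h0).or
      (((Primrec.nat_le.comp ho hA).and (Primrec.nat_le.comp ho' hA)).or
      (((Primrec.nat_lt.comp hA ho).and ((Primrec.nat_le.comp ho hQ).and
        ((Primrec.nat_lt.comp hA ho').and (Primrec.nat_le.comp ho' hQ)))).or
      ((Primrec.nat_lt.comp hQ ho).and (Primrec.nat_lt.comp hQ ho')))))))))).or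
    (((Primrec.eq.comp hi' (Primrec.succ.comp hi)).and ((Primrec.eq.comp ho' h0).and
      ((Primrec.nat_lt.comp hQ ho).and (Primrec.nat_lt.comp ho hW)))).or
    ((Primrec.eq.comp hi (Primrec.succ.comp hi')).and ((Primrec.eq.comp ho h0).and
      ((Primrec.nat_lt.comp hQ ho').and (Primrec.nat_lt.comp ho' hW)))))

theorem primrec_rowCode (t c₁ c₂ c₃ : ℕ) {k i : α → ℕ} (hk : Primrec k) (hi : Primrec i) :
    Primrec fun a => rowCode t c₁ c₂ c₃ (k a) (i a) :=
  Primrec.ite (Primrec.nat_lt.comp hi (Primrec.const 2)) (Primrec.const t)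
    (Primrec.ite (Primrec.eq.comp hi (Primrec.const 2)) (Primrec.const c₁)
      (Primrec.ite (Primrec.nat_lt.comp hi (Primrec.nat_add.comp hk (Primrec.const 4)))
        (Primrec.const c₂) (Primrec.const c₃)))

theorem primrecPred_xbit (T : Tiling) {k m d : α → ℕ} (hk : Primrec k) (hm : Primrec m)
    (hd : Primrec d) : PrimrecPred fun a => xbit T (k a) (m a) (d a) := by
  have h1 : Primrec fun a => d a - 1 := Primrec.nat_sub.comp hd (Primrec.const 1)
  exact primrecPred_iff ((Primrec.eq.comp hd (Primrec.const 0)).not.and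
    (Primrec.eq.comp (Primrec.nat_mod.comp h1 (Primrec.const T.t))
      (primrec_rowCode _ _ _ _ hk (Primrec.nat_div.comp h1 (Primrec.const T.t)))))
    (Primrec.eq.comp hd hm).not

theorem primrecPred_xAdj (T : Tiling) {k m u v : α → ℕ} (hk : Primrec k) (hm : Primrec m)
    (hu : Primrec u) (hv : Primrec v) : PrimrecPred fun a => xAdj T (k a) (m a) (u a) (v a) := by
  have hW : Primrec fun _ : α => Q T.t + 3 := Primrec.const _
  have h0 : Primrec fun _ : α => 0 := Primrec.const _
  have hud : Primrec fun a => u a / (Q T.t + 3) - 1 :=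
    Primrec.nat_sub.comp (Primrec.nat_div.comp hu hW) (Primrec.const 1)
  have hvd : Primrec fun a => v a / (Q T.t + 3) - 1 :=
    Primrec.nat_sub.comp (Primrec.nat_div.comp hv hW) (Primrec.const 1)
  have hum : Primrec fun a => u a % (Q T.t + 3) := Primrec.nat_mod.comp hu hW
  have hvm : Primrec fun a => v a % (Q T.t + 3) := Primrec.nat_mod.comp hv hW
  exact ((Primrec.nat_le.comp hW hu).and ((Primrec.nat_le.comp hW hv).and
      (primrecPred_canAdj _ _ hud hum hvd hvm))).or
    (((Primrec.nat_lt.comp hu hW).and ((Primrec.nat_lt.comp hv hW).and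
      (primrecPred_canAdj _ _ h0 hu h0 hv))).or
    (((Primrec.nat_le.comp hW hu).and ((Primrec.eq.comp hum h0).and ((Primrec.eq.comp hv h0).and
      (primrecPred_xbit T hk hm hud)))).or
    ((Primrec.nat_le.comp hW hv).and ((Primrec.eq.comp hvm h0).and ((Primrec.eq.comp hu h0).and
      (primrecPred_xbit T hk hm hvd))))))

theorem primrec_codeX (T : Tiling) : Primrec₂ (codeX T) := by
  classical
  have hn : Primrec fun a : ℕ × ℕ => (a.2 + 2) * (Q T.t + 3) :=
    Primrec.nat_mul.comp (Primrec.nat_add.comp Primrec.snd (Primrec.const 2)) (Primrec.const _)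
  have hpairs : Primrec fun n : ℕ => (List.range n).flatMap fun u =>
      (List.range n).map fun v => (u, v) :=
    Primrec.list_flatMap Primrec.list_range
      (Primrec.list_map (Primrec.list_range.comp Primrec.fst)
        (Primrec.pair (Primrec.snd.comp Primrec.fst) Primrec.snd).to₂).to₂
  have hR : PrimrecRel fun (p : ℕ × ℕ) (a : ℕ × ℕ) => xAdj T a.1 a.2 p.1 p.2 :=
    primrecPred_xAdj T (Primrec.fst.comp Primrec.snd) (Primrec.snd.comp Primrec.snd)
      (Primrec.fst.comp Primrec.fst) (Primrec.snd.comp Primrec.fst)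
  exact Primrec.pair hn (hR.listFilter.comp (hpairs.comp hn) Primrec.id)

end Prim

theorem occ_iff (T : Tiling) (k m : ℕ) {V : Type} (G : SimpleGraph V) :
    Occ T k m G ↔ Nonempty (decode (codeX T k m) ↪g G) := by
  set W := Q T.t + 3 with hW
  have hW0 : 0 < W := by omega
  have hn : (codeX T k m).1 = (m + 2) * W := rfl
  have hnpos : 0 < (codeX T k m).1 := by rw [hn]; positivity
  have hA : ∀ u : ℕ × ℕ, u ∈ Box T.t (m + 1) → (u.1 + 1) * W + u.2 < (codeX T k m).1 ∧
      W ≤ (u.1 + 1) * W + u.2 ∧ ((u.1 + 1) * W + u.2) / W - 1 = u.1 ∧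
      ((u.1 + 1) * W + u.2) % W = u.2 := by
    rintro ⟨i, o⟩ ⟨h1, h2⟩
    dsimp only at h1 h2 ⊢
    have h3 : (i + 1) * W ≤ (m + 1) * W := Nat.mul_le_mul_right W (by omega)
    have h4 : (m + 2) * W = (m + 1) * W + W := by ring
    have h5 : (i + 1) * W = i * W + W := by ring
    refine ⟨by omega, by omega, ?_, ?_⟩
    · rw [add_comm, Nat.add_mul_div_right _ _ hW0, Nat.div_eq_of_lt h2]; simp
    · rw [add_comm, Nat.add_mul_mod_self_right, Nat.mod_eq_of_lt h2]
  have hB : ∀ o < W, o < (codeX T k m).1 := by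
    intro o ho
    have h4 : (m + 2) * W = (m + 1) * W + W := by ring
    omega
  have hbox : ∀ u : Fin (codeX T k m).1, W ≤ u.val →
      (u.val / W - 1, u.val % W) ∈ Box T.t (m + 1) ∧
        (u.val / W - 1 + 1) * W + u.val % W = u.val := by
    intro u hu
    have h1 : u.val / W < m + 2 := by
      rw [Nat.div_lt_iff_lt_mul hW0]; exact u.2
    have h2 : 1 ≤ u.val / W := by
      rw [Nat.le_div_iff_mul_le hW0]; omega
    refine ⟨⟨by show _ < _; omega, Nat.mod_lt _ hW0⟩, ?_⟩
    rw [Nat.sub_add_cancel h2, mul_comm]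
    exact Nat.div_add_mod _ _
  constructor
  · rintro ⟨ψA, ψB, h1, h2, h3⟩
    let φ : Fin (codeX T k m).1 → V := fun u =>
      if W ≤ u.val then ψA (u.val / W - 1, u.val % W) else ψB (0, u.val)
    have hadj : ∀ u v, G.Adj (φ u) (φ v) ↔ xAdj T k m u v := by
      intro u v
      simp only [φ, xAdj, ← hW]
      by_cases hu : W ≤ u.val <;> by_cases hv : W ≤ v.val
      · rw [if_pos hu, if_pos hv, ← h1.2 _ (hbox u hu).1 _ (hbox v hv).1]
        refine ⟨fun h => Or.inl ⟨hu, hv, h⟩, ?_⟩
        rintro (h | h | h | h)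
        · exact h.2.2
        all_goals omega
      · rw [if_pos hu, if_neg hv, h3 _ (hbox u hu).1 _ ⟨Nat.lt_succ_self 0, not_le.mp hv⟩]
        refine ⟨fun h => Or.inr (Or.inr (Or.inl ⟨hu, h⟩)), ?_⟩
        rintro (h | h | h | h)
        · omega
        · omega
        · exact h.2
        · omega
      · rw [if_neg hu, if_pos hv, G.adj_comm,
          h3 _ (hbox v hv).1 _ ⟨Nat.lt_succ_self 0, not_le.mp hu⟩]
        refine ⟨fun h => Or.inr (Or.inr (Or.inr ⟨hv, h⟩)), ?_⟩
        rintro (h | h | h | h)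
        · omega
        · omega
        · omega
        · exact h.2
      · rw [if_neg hu, if_neg hv, ← h2.2 _ ⟨Nat.lt_succ_self 0, not_le.mp hu⟩ _
          ⟨Nat.lt_succ_self 0, not_le.mp hv⟩]
        refine ⟨fun h => Or.inr (Or.inl ⟨not_le.mp hu, not_le.mp hv, h⟩), ?_⟩
        rintro (h | h | h | h)
        · omega
        · exact h.2.2
        all_goals omega
    have hpriv : ∀ u : Fin (codeX T k m).1, ∃ u' : Fin (codeX T k m).1, xAdj T k m u u' ∧
        ∀ v : Fin (codeX T k m).1, xAdj T k m v u' → v = u ∨ xAdj T k m u v := by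
      intro u
      by_cases hu : W ≤ u.val
      · obtain ⟨o', h4, h5, h6, h7⟩ := can_private T.ht true (u.val / W - 1) (u.val % W)
          (Nat.mod_lt _ hW0)
        obtain ⟨e1, e2, e3, e4⟩ := hA (u.val / W - 1, o') ⟨(hbox u hu).1.1, h5⟩
        dsimp only at e1 e2 e3 e4
        refine ⟨⟨_, e1⟩, Or.inl ⟨hu, e2, by rw [← hW, e3, e4]; exact h6⟩, fun v hv => ?_⟩
        simp only [xAdj, ← hW] at hv
        rcases hv with ⟨hv, -, h⟩ | h | h | h
        · rw [e3, e4] at h
          rcases h7 _ h with h | h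
          · refine Or.inl (Fin.ext ?_)
            obtain ⟨h8, h9⟩ := Prod.mk.inj h
            rw [← (hbox u hu).2, ← (hbox v hv).2, h8, h9]
          · exact Or.inr (Or.inl ⟨hu, hv, h⟩)
        all_goals omega
      · obtain ⟨o', h4, h5, h6, h7⟩ := can_private T.ht false 0 u.val (not_le.mp hu)
        refine ⟨⟨o', hB o' h5⟩, Or.inr (Or.inl ⟨not_le.mp hu, h5, h6⟩), fun v hv => ?_⟩
        simp only [xAdj, ← hW] at hv
        rcases hv with h | ⟨hv, -, h⟩ | h | h
        · omega
        · rcases h7 _ h with h | h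
          · exact Or.inl (Fin.ext (Prod.ext_iff.mp h).2)
          · exact Or.inr (Or.inr (Or.inl ⟨not_le.mp hu, hv, h⟩))
        all_goals omega
    refine ⟨⟨⟨φ, fun u v huv => ?_⟩, fun {u v} => (hadj u v).trans (decode_codeX u v).symm⟩⟩
    obtain ⟨u', h4, h5⟩ := hpriv u
    have h6 : xAdj T k m v u' := by
      rw [← hadj, ← huv, hadj]; exact h4
    rcases h5 v h6 with h | h
    · exact h.symm
    · rw [← hadj, huv] at h
      exact absurd rfl h.ne
  · rintro ⟨e⟩
    let f : ℕ → Fin (codeX T k m).1 := fun x => if h : x < (codeX T k m).1 then ⟨x, h⟩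
      else ⟨0, hnpos⟩
    have hf : ∀ x < (codeX T k m).1, (f x).val = x := fun x hx => by simp [f, hx]
    have he : ∀ x < (codeX T k m).1, ∀ y < (codeX T k m).1,
        G.Adj (e (f x)) (e (f y)) ↔ xAdj T k m x y := by
      intro x hx y hy
      rw [e.map_adj_iff, decode_codeX, hf x hx, hf y hy]
    refine ⟨fun u => e (f ((u.1 + 1) * W + u.2)), fun u => e (f u.2),
      ⟨fun _ _ => trivial, fun u hu v hv => ?_⟩, ⟨fun _ _ => trivial, fun u hu v hv => ?_⟩,
      fun u hu v hv => ?_⟩
    · obtain ⟨e1, e2, e3, e4⟩ := hA u hu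
      obtain ⟨e5, e6, e7, e8⟩ := hA v hv
      rw [he _ e1 _ e5]
      simp only [xAdj, ← hW, e3, e4, e7, e8]
      refine ⟨fun h => Or.inl ⟨e2, e6, h⟩, ?_⟩
      rintro (h | h | h | h)
      · exact h.2.2
      all_goals omega
    · obtain ⟨i, o⟩ := u
      obtain ⟨i', o'⟩ := v
      obtain rfl : i = 0 := Nat.lt_one_iff.mp hu.1
      obtain rfl : i' = 0 := Nat.lt_one_iff.mp hv.1
      have h1 : o < W := hu.2
      have h2 : o' < W := hv.2
      rw [he _ (hB _ h1) _ (hB _ h2)]
      simp only [xAdj, ← hW]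
      refine ⟨fun h => Or.inr (Or.inl ⟨h1, h2, h⟩), ?_⟩
      rintro (h | h | h | h)
      · omega
      · exact h.2.2
      all_goals omega
    · obtain ⟨e1, e2, e3, e4⟩ := hA u hu
      have h2 : v.2 < W := hv.2
      rw [he _ e1 _ (hB _ h2)]
      simp only [xAdj, ← hW, e3, e4]
      refine ⟨?_, fun h => Or.inr (Or.inr (Or.inl ⟨e2, h⟩))⟩
      rintro (h | h | h | h)
      · omega
      · omega
      · exact h.2
      · omega

/-- A computable family of finite lists of forbidden graphs defining the classes `Good T k`. -/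
theorem exists_family (T : Tiling) : ∃ F : ℕ → List (ℕ × List (ℕ × ℕ)), Computable F ∧
    ∀ k {V : Type} (G : SimpleGraph V), Free (F k) G ↔ Good T k G := by
  obtain ⟨F₀, hF₀⟩ := exists_forbidden T
  refine ⟨fun k => F₀ ++ (List.range ((k + 5) * T.t + 1)).map (codeX T k), ?_, fun k V G => ?_⟩
  · refine (Primrec.list_append.comp (Primrec.const F₀) (Primrec.list_map ?_ (primrec_codeX T))).to_comp
    exact Primrec.list_range.comp (Primrec.succ.comp (Primrec.nat_mul.comp
      (Primrec.nat_add.comp Primrec.id (Primrec.const 5)) (Primrec.const _)))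
  · unfold Good
    rw [← hF₀]
    simp only [Free, List.mem_append, List.mem_map, List.mem_range, occ_iff, not_nonempty_iff]
    constructor
    · intro h
      exact ⟨fun c hc => h c (Or.inl hc), fun m hm => h _ (Or.inr ⟨m, hm, rfl⟩)⟩
    · rintro ⟨h1, h2⟩ c (hc | ⟨m, hm, rfl⟩)
      · exact h1 c hc
      · exact h2 m hm

end Pool.Agent.Lib.MP_451b27_lc
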