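import Mathlib
import Pool.Agent.Lib.MP_451b27_lc.Codes

/-! The sandwich problem of the class attached to `k` is a CSP exactly when `k` does not halt. -/

namespace Pool.Agent.Lib.MP_451b27_lc

open Set

theorem isCSP_of_not_halts (T : Tiling) {k : ℕ} {F : List (ℕ × List (ℕ × ℕ))}
    (hF : ∀ {V : Type} (G : SimpleGraph V), Free F G ↔ Good T k G) (hk : ¬ Halts k) :
    IsCSP F := by
  obtain ⟨τ, hrow, hτ⟩ := T.nonhalt k hk
  let Gs : {G : SimpleGraph ℕ // Good T k G} → SimpleGraph ℕ := fun G => G.1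
  have hJ : Good T k (joint T τ Gs) := joint_good (fun G => G.2) hrow hτ
  refine ⟨_, joint T τ Gs, (joint T τ Gs)ᶜ, disjoint_compl_right, fun V _ B R _ => ⟨?_, ?_⟩⟩
  · rintro ⟨E, hBE, hER, hE⟩
    rcases isEmpty_or_nonempty V with hV | hV
    · exact ⟨fun v => hV.elim v, fun u => hV.elim u, fun u => hV.elim u⟩
    obtain ⟨π, hπ⟩ := exists_surjective_nat V
    obtain ⟨ρ, hρ⟩ := hπ.hasRightInverse
    let i : {G : SimpleGraph ℕ // Good T k G} := ⟨E.comap π, ((hF E).mp hE).comap π⟩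
    have hadj : ∀ u v, (joint T τ Gs).Adj (i, ρ u) (i, ρ v) ↔ E.Adj u v := by
      intro u v
      rw [joint_same (a := (i, ρ u)) (b := (i, ρ v)) rfl]
      show E.Adj (π (ρ u)) (π (ρ v)) ↔ _
      rw [hρ u, hρ v]
    refine ⟨fun v => (i, ρ v), fun u v h => (hadj u v).mpr (hBE h), fun u v h => ?_⟩
    rw [SimpleGraph.compl_adj, hadj]
    refine ⟨fun h' => h.ne (hρ.injective (Prod.mk.inj h').2), fun h' => ?_⟩
    exact (hER.le_bot (show (E ⊓ R).Adj u v from ⟨h', h⟩) : False)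
  · rintro ⟨φ, h1, h2⟩
    refine ⟨(joint T τ Gs).comap φ, fun u v h => h1 u v h, ?_, (hF _).mpr (hJ.comap φ)⟩
    rw [disjoint_iff_inf_le]
    rintro u v ⟨h3, h4⟩
    exact ((SimpleGraph.compl_adj _ _ _).mp (h2 u v h4)).2 h3

theorem not_isCSP_of_halts (T : Tiling) {k : ℕ} {F : List (ℕ × List (ℕ × ℕ))}
    (hF : ∀ {V : Type} (G : SimpleGraph V), Free F G ↔ Good T k G) (hk : Halts k) :
    ¬ IsCSP F := by
  obtain ⟨N₀, hN₀⟩ := T.halt k hk
  rintro ⟨W, HB, HR, -, hH⟩
  obtain ⟨N, hN1, hN2⟩ : ∃ N, N₀ ≤ N ∧ (k + 5) * T.t + 1 ≤ N := ⟨max _ _, le_max_left _ _,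
    le_max_right _ _⟩
  let G : Bool → SimpleGraph (Fin (N + 1) × Fin (Q T.t + 3)) := fun σ =>
    (can T.t σ).comap (Prod.map Fin.val Fin.val)
  have hhom : ∀ σ, MapsTo2 (G σ) (G σ)ᶜ HB HR := fun σ =>
    (hH _ _ _ disjoint_compl_right).mp
      ⟨G σ, le_rfl, disjoint_compl_right, (hF _).mpr ((good_can T k σ).comap _)⟩
  obtain ⟨φA, hA1, hA2⟩ := hhom true
  obtain ⟨φB, hB1, hB2⟩ := hhom false
  have hdisj : Disjoint ((G true).sum (G false)) ((G true)ᶜ.sum (G false)ᶜ) := by
    rw [disjoint_iff_inf_le]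
    rintro (u | u) (v | v) ⟨h1, h2⟩
    · exact ((SimpleGraph.compl_adj _ _ _).mp h2).2 h1
    · exact absurd h1 (by simp)
    · exact absurd h1 (by simp)
    · exact ((SimpleGraph.compl_adj _ _ _).mp h2).2 h1
  obtain ⟨E, hBE, hER, hE⟩ := (hH _ _ _ hdisj).mpr ⟨Sum.elim φA φB, by
    rintro (u | u) (v | v) h
    · exact hA1 u v h
    · exact absurd h (by simp)
    · exact absurd h (by simp)
    · exact hB1 u v h, by
    rintro (u | u) (v | v) h
    · exact hA2 u v h
    · exact absurd h (by simp)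
    · exact absurd h (by simp)
    · exact hB2 u v h⟩
  obtain ⟨hR, hocc⟩ := (hF E).mp hE
  let f : ℕ × ℕ → Fin (N + 1) × Fin (Q T.t + 3) := fun u => (Fin.ofNat _ u.1, Fin.ofNat _ u.2)
  have hf : ∀ u ∈ Box T.t (N + 1), Prod.map Fin.val Fin.val (f u) = u := by
    rintro ⟨i, o⟩ ⟨h1, h2⟩
    exact Prod.ext (Nat.mod_eq_of_lt h1) (Nat.mod_eq_of_lt h2)
  have hno : ∀ a b, ((G true)ᶜ.sum (G false)ᶜ).Adj a b → ¬ E.Adj a b := fun a b h h' =>
    (hER.le_bot (show (E ⊓ _).Adj a b from ⟨h', h⟩) : False)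
  have hmA : Model T.t E true (N + 1) fun u => Sum.inl (f u) := by
    refine ⟨fun _ _ => trivial, fun u hu v hv => ?_⟩
    have : (G true).Adj (f u) (f v) ↔ (can T.t true).Adj u v := by
      simp only [G, SimpleGraph.comap_adj, hf u hu, hf v hv]
    rw [← this]
    refine ⟨fun h => hBE h, fun h => ?_⟩
    by_contra h'
    exact hno (Sum.inl (f u)) (Sum.inl (f v))
      ((SimpleGraph.compl_adj _ _ _).mpr ⟨fun e => h.ne (congrArg _ e), h'⟩) h
  have hmB : Model T.t E false (N + 1) fun u => Sum.inr (f u) := by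
    refine ⟨fun _ _ => trivial, fun u hu v hv => ?_⟩
    have : (G false).Adj (f u) (f v) ↔ (can T.t false).Adj u v := by
      simp only [G, SimpleGraph.comap_adj, hf u hu, hf v hv]
    rw [← this]
    refine ⟨fun h => hBE h, fun h => ?_⟩
    by_contra h'
    exact hno (Sum.inr (f u)) (Sum.inr (f v))
      ((SimpleGraph.compl_adj _ _ _).mpr ⟨fun e => h.ne (congrArg _ e), h'⟩) h
  refine hN₀ (fun d e => E.Adj (Sum.inl (f (d, 0))) (Sum.inr (f (e, 0)))) ?_ ?_
  · intro m
    induction m using Nat.strong_induction_on with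
    | _ m ih =>
      intro hm
      by_contra hcon
      refine hocc m hm ⟨_, _, hmA.mono (by omega), hmB.mono (by omega), ?_⟩
      rintro ⟨i, o⟩ hu ⟨i', o'⟩ hv
      obtain rfl : i' = 0 := Nat.lt_one_iff.mp hv.1
      have hi : i < m + 1 := hu.1
      have hu' : (i, o) ∈ Box T.t (N + 1) := ⟨by show i < _; omega, hu.2⟩
      have hv' : (0, o') ∈ Box T.t (N + 1) := ⟨Nat.succ_pos N, hv.2⟩
      by_cases ho : o = 0
      · subst ho
        by_cases ho' : o' = 0
        · subst ho'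
          simp only [xbit, true_and]
          by_cases him : i = m
          · subst him
            tauto
          · rw [ih i (by omega) (by omega)]
            tauto
        · refine ⟨fun h => ?_, fun h => absurd h.2.1 ho'⟩
          exact absurd h.symm (hR.gad₁ false _ _ _ (hmB.gad T.ht hv' ho') (hmA.role T.ht hu'.1))
      · refine ⟨fun h => ?_, fun h => absurd h.1 ho⟩
        by_cases ho' : o' = 0
        · subst ho'
          exact absurd h (hR.gad₁ true _ _ _ (hmA.gad T.ht hu' ho) (hmB.role T.ht hv'.1))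
        · exact absurd h (hR.gad₂ true _ _ (hmA.gad T.ht hu' ho) (hmB.gad T.ht hv' ho'))
  · intro d e hd he
    have ht := T.ht
    exact hR.window (fun a => Sum.inl (f (d + a, 0))) (fun c => Sum.inr (f (e + c, 0))) _ _
      (hmA.role T.ht (i := d) (by omega)) (fun a ha => hmA.succ T.ht (i := d + a) (by omega))
      (hmB.role T.ht (i := e) (by omega)) (hmB.succ T.ht (i := e) (by omega))

theorem not_computablePred_isCSP : ¬ ComputablePred IsCSP := by
  intro h
  obtain ⟨T⟩ := nonempty_tiling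
  obtain ⟨F, hF, hFG⟩ := exists_family T
  have hred : (fun k => ¬ Halts k) ≤₀ IsCSP :=
    ⟨F, hF, fun k => ⟨isCSP_of_not_halts T (hFG k),
      fun h hk => not_isCSP_of_halts T (hFG k) hk h⟩⟩
  exact not_computablePred_halts
    ((ComputablePred.computable_of_manyOneReducible hred h).not.of_eq fun k => not_not)

end Pool.Agent.Lib.MP_451b27_lc
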